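import Pool.Agent.W23.DC.Defs
import Pool.Agent.Y445.JRB.Buch
import Pool.Agent.H305R2.MertensE

/-! The constant of the linear sieve and the theorem of Mertens, in the form needed here (from the
starting files `Y882/JR/Lim`, `Y781/JR/Core` and `Y781/JR/Dens`). -/

set_option autoImplicit false

namespace Pool.Agent.V8H2.QW

open Filter Finset Topology
open Pool.Agent.W23.DC

theorem cF_sh {F : ℝ → ℝ} (hF : ContinuousOn F (Set.Ici 1)) {a b : ℝ} (ha : 2 ≤ a) (hb : 2 ≤ b) :
    IntervalIntegrable (fun x => F (x - 1)) MeasureTheory.volume a b := by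
  apply ContinuousOn.intervalIntegrable
  apply hF.comp (continuousOn_id.sub continuousOn_const)
  intro x hx
  have h1 : min a b ≤ x := hx.1
  have h2 : 2 ≤ min a b := le_min ha hb
  show (1 : ℝ) ≤ x - 1
  linarith

/-- `s (F + f)` -/
theorem sum_eq {A0 : ℝ} {F f : ℝ → ℝ} (h : SF A0 F f) (s : ℝ) (hs : 2 ≤ s) :
    s * F s = A0 + ∫ x in (2 : ℝ)..s, f (x - 1) := by
  have h0 : ∀ t : ℝ, 2 ≤ t → t ≤ 3 → ∫ x in (2 : ℝ)..t, f (x - 1) = 0 := by
    intro t ht ht3
    have h1 : ∫ x in (2 : ℝ)..t, f (x - 1) = ∫ x in (2 : ℝ)..t, (0 : ℝ) := by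
      apply intervalIntegral.integral_congr
      intro x hx
      rw [Set.uIcc_of_le ht] at hx
      exact h.f2 (x - 1) (by linarith [hx.1]) (by linarith [hx.2])
    rw [h1]
    simp
  rcases le_total s 3 with h3 | h3
  · rw [h0 s hs h3, h.F3 s (by linarith) h3, add_zero]
    field_simp
  · rw [h.eF s h3, ← intervalIntegral.integral_add_adjacent_intervals (a := 2) (b := 3) (c := s)
      (cF_sh h.cf le_rfl (by norm_num)) (cF_sh h.cf (by norm_num) hs), h0 3 (by norm_num) le_rfl,
      zero_add]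

theorem diff_le {A0 : ℝ} {F f : ℝ → ℝ} (h : SF A0 F f) (s : ℝ) (hs : 2 ≤ s) :
    F s - f s ≤ A0 / s := by
  have h1 := sum_eq h s hs
  have h2 := h.ef s hs
  have h3 : ∫ x in (2 : ℝ)..s, f (x - 1) ≤ ∫ x in (2 : ℝ)..s, F (x - 1) := by
    apply intervalIntegral.integral_mono_on hs (cF_sh h.cf le_rfl hs) (cF_sh h.cF le_rfl hs)
    intro x hx
    have h4 := h.F1 (x - 1) (by linarith [hx.1])
    have h5 := h.f1 (x - 1) (by linarith [hx.1])
    linarith
  have hs0 : 0 < s := by linarith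
  rw [le_div_iff₀ hs0]
  nlinarith

theorem F_lim {A0 : ℝ} {F f : ℝ → ℝ} (h : SF A0 F f) : Tendsto F atTop (nhds 1) := by
  have h1 : Tendsto (fun s : ℝ => 1 + A0 / s) atTop (nhds (1 + 0)) :=
    tendsto_const_nhds.add (tendsto_const_nhds.div_atTop tendsto_id)
  rw [add_zero] at h1
  apply tendsto_of_tendsto_of_tendsto_of_le_of_le' tendsto_const_nhds h1
  · filter_upwards [eventually_ge_atTop 1] with s hs
    exact h.F1 s hs
  · filter_upwards [eventually_ge_atTop 2] with s hs
    have h2 := diff_le h s hs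
    have h3 := h.f1 s (by linarith)
    linarith

theorem f_lim {A0 : ℝ} {F f : ℝ → ℝ} (h : SF A0 F f) : Tendsto f atTop (nhds 1) := by
  have h1 : Tendsto (fun s : ℝ => 1 - A0 / s) atTop (nhds (1 - 0)) :=
    tendsto_const_nhds.sub (tendsto_const_nhds.div_atTop tendsto_id)
  rw [sub_zero] at h1
  apply tendsto_of_tendsto_of_tendsto_of_le_of_le' h1 tendsto_const_nhds
  · filter_upwards [eventually_ge_atTop 2] with s hs
    have h2 := diff_le h s hs
    have h3 := h.F1 s (by linarith)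
    linarith
  · filter_upwards [eventually_ge_atTop 1] with s hs
    exact h.f1 s hs

theorem A0_eq {A0 : ℝ} {F f : ℝ → ℝ} (h : SF A0 F f) :
    A0 = 2 * Real.exp Real.eulerMascheroniConstant := by
  have hA := h.pos
  have h1 := Pool.Agent.Y445.JRB.t (fun s => (F s + f s) / A0) (2 / A0) ((h.cF.add h.cf).div_const A0) ?_ ?_ ?_
  · rw [Real.exp_neg, div_eq_iff hA.ne'] at h1
    rw [inv_mul_eq_div, eq_div_iff (Real.exp_pos _).ne'] at h1
    exact h1.symm
  · intro s hs1 hs2
    show s * ((F s + f s) / A0) = 1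
    rw [h.f2 s hs1 hs2, h.F3 s hs1 (by linarith)]
    have : s ≠ 0 := by linarith
    field_simp
    ring
  · intro s hs
    show s * ((F s + f s) / A0) = 1 + ∫ x in (2 : ℝ)..s, (F (x - 1) + f (x - 1)) / A0
    rw [intervalIntegral.integral_div, intervalIntegral.integral_add (cF_sh h.cF le_rfl hs)
      (cF_sh h.cf le_rfl hs), ← h.ef s hs]
    have h2 := sum_eq h s hs
    have h3 : ∫ x in (2 : ℝ)..s, f (x - 1) = s * F s - A0 := by linarith
    rw [h3]
    field_simp
    ring
  · have h2 := ((F_lim h).add (f_lim h)).div_const A0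
    norm_num at h2
    exact h2


noncomputable def GG (N : ℕ) : ℝ := ∏ p ∈ (range N).filter Nat.Prime, (1 - 1 / (p : ℝ))


theorem fac_pos (p : ℕ) (hp : p.Prime) : 0 < 1 - 1 / (p : ℝ) ∧ 1 - 1 / (p : ℝ) ≤ 1 := by
  have h2 : (2 : ℝ) ≤ p := by exact_mod_cast hp.two_le
  constructor
  · rw [sub_pos, div_lt_one (by linarith)]; linarith
  · have : 0 ≤ 1 / (p : ℝ) := by positivity
    linarith

theorem GG_pos (N : ℕ) : 0 < GG N := by
  unfold GG
  exact prod_pos (fun p hp => (fac_pos p (mem_filter.1 hp).2).1)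

theorem GG_le (N : ℕ) : GG N ≤ 1 := by
  unfold GG
  exact prod_le_one (fun p hp => (fac_pos p (mem_filter.1 hp).2).1.le)
    (fun p hp => (fac_pos p (mem_filter.1 hp).2).2)


theorem GG_mertens : Tendsto (fun N : ℕ => GG (N + 1) * Real.log N) atTop
    (𝓝 (Real.exp (-Real.eulerMascheroniConstant))) := by
  have h := (Pool.Agent.H305R2.mertens_three).inv₀ (Real.exp_pos _).ne'
  rw [← Real.exp_neg] at h
  refine h.congr (fun N => ?_)
  rw [inv_div, div_eq_mul_inv, mul_comm]
  congr 1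
  rw [← prod_inv_distrib]
  unfold GG
  have hs : (Icc 1 N).filter Nat.Prime = (range (N + 1)).filter Nat.Prime := by
    ext p
    rw [mem_filter, mem_filter, mem_Icc, mem_range]
    constructor
    · rintro ⟨⟨_, h2⟩, h3⟩
      exact ⟨by omega, h3⟩
    · rintro ⟨h2, h3⟩
      exact ⟨⟨h3.one_le, by omega⟩, h3⟩
  rw [hs]
  refine prod_congr rfl (fun p _ => ?_)
  rw [inv_inv, one_div]


theorem real_version (G : ℕ → ℝ) (hG0 : ∀ N, 0 ≤ G N) (hG1 : ∀ N, G N ≤ 1) (L : ℝ)
    (hG : Tendsto (fun N : ℕ => G N * Real.log N) atTop (𝓝 L)) :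
    Tendsto (fun z : ℝ => G (⌈z⌉₊ - 1) * Real.log z) atTop (𝓝 L) := by
  have hM : Tendsto (fun z : ℝ => ⌈z⌉₊ - 1) atTop atTop := by
    refine tendsto_atTop.2 fun b => ?_
    filter_upwards [tendsto_nat_ceil_atTop.eventually_ge_atTop (b + 1)] with v hv
    omega
  have h1 := hG.comp hM
  have h2 : Tendsto (fun z : ℝ => G (⌈z⌉₊ - 1) * (Real.log z - Real.log ((⌈z⌉₊ - 1 : ℕ) : ℝ))) atTop (𝓝 0) := by
    have h3 : Tendsto (fun z : ℝ => 1 / (((⌈z⌉₊ - 1 : ℕ) : ℝ))) atTop (𝓝 0) :=
      tendsto_one_div_atTop_nhds_zero_nat.comp hM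
    refine squeeze_zero_norm' ?_ h3
    filter_upwards [eventually_gt_atTop (2 : ℝ)] with z hz
    have hc1 : 2 < ⌈z⌉₊ := Nat.lt_ceil.2 (by exact_mod_cast hz)
    set M := ⌈z⌉₊ - 1 with hMdef
    have hM1 : (2 : ℝ) ≤ M := by exact_mod_cast (show 2 ≤ M by omega)
    have hMz : (M : ℝ) < z := Nat.lt_ceil.1 (by omega)
    have hzM : z ≤ M + 1 := by
      have := Nat.le_ceil z
      have h' : ((⌈z⌉₊ : ℕ) : ℝ) = M + 1 := by
        have : ⌈z⌉₊ = M + 1 := by omega
        rw [this]; push_cast; ring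
      linarith
    have hl : 0 ≤ Real.log z - Real.log M := by
      have := Real.log_le_log (by linarith) hMz.le
      linarith
    have hu : Real.log z - Real.log M ≤ 1 / M := by
      rw [← Real.log_div (by linarith) (by linarith)]
      have hz0 : 0 < z / M := by positivity
      have := Real.log_le_sub_one_of_pos hz0
      refine this.trans ?_
      rw [div_sub_one (by linarith)]
      exact div_le_div_of_nonneg_right (by linarith) (by linarith)
    rw [Real.norm_eq_abs, abs_of_nonneg (mul_nonneg (hG0 M) hl)]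
    calc G M * (Real.log z - Real.log M) ≤ 1 * (1 / M) := mul_le_mul (hG1 M) hu hl zero_le_one
      _ = 1 / M := one_mul _
  have h4 := h1.add h2
  rw [add_zero] at h4
  refine h4.congr (fun z => ?_)
  simp only [Function.comp]
  ring


/-- the theorem of Mertens for a real variable -/
theorem mert : Tendsto (fun z : ℝ => GG ⌈z⌉₊ * Real.log z) atTop
    (𝓝 (Real.exp (-Real.eulerMascheroniConstant))) := by
  have h1 := real_version (fun N => GG (N + 1)) (fun N => (GG_pos _).le) (fun N => GG_le _) _ GG_mertens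
  refine h1.congr' ?_
  filter_upwards [eventually_gt_atTop (0 : ℝ)] with z hz
  have hc : 0 < ⌈z⌉₊ := Nat.ceil_pos.2 hz
  rw [Nat.sub_add_cancel hc]

end Pool.Agent.V8H2.QW
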