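import Pool.Agent.Y882.PY.Use
import Pool.Agent.Y882.KW.Alm

/-! The weighted sieve for the values of `F + k`, for all but few constant terms `k`. -/

set_option autoImplicit false

namespace Pool.Agent.V8H2.QW

open Finset Polynomial Filter
open Pool.Agent.W23.DC
open Pool.Agent.Y882
open Pool.Agent.Y882.PX
open Pool.Agent.Y882.PY
open Pool.Agent.Y882.KW

/-- the `n ≤ X` at which the weight of `F(n) + k` is positive -/
noncomputable def posk (F : ℤ[X]) (k : ℤ) (Y : ℕ) (ζ υ aw bw : ℝ) (X : ℕ) : Finset ℕ :=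
  (Icc 1 X).filter (fun n : ℕ => 0 < WW Y ζ υ aw bw (F.eval (n : ℤ) + k).natAbs)

open Classical in
/-- **The weighted sieve, for all but few constant terms.** -/
theorem engK (K : ℕ) (β τ ζ υ aw bw h ε : ℝ) (hβ : 0 < β) (hζ : 0 < ζ) (h2 : 2 * ζ < τ)
    (h4 : τ ≤ 4 * ζ) (hτ : τ < 1) (hζυ : ζ ≤ υ) (hυ2 : υ ≤ 1 / 2) (hυτ : υ < τ) (ha : 0 ≤ aw)
    (hb : 0 ≤ bw) (hab : bw * υ ≤ aw)
    (hJ0 : ∫ x in ζ..υ, (aw - bw * x) / (τ - x) / x < Real.log (τ / ζ - 1) / τ)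
    (hh : 0 < h) (hh1 : h ≤ 1) (hε : 0 < ε) :
    ∃ δ : ℝ, 0 < δ ∧ ∃ Y0 : ℕ, ∀ Y : ℕ, Y0 ≤ Y →
      ∀ (F : ℤ[X]) (H X Z : ℕ), (∀ p : ℕ, p.Prime → ∀ k : ℤ, ro F k p ≤ K) →
        (H : ℝ) ≤ (Y : ℝ) ^ h → (Y : ℝ) ^ β ≤ X → (Y : ℝ) ^ β ≤ Z →
        (((Icc (-(H : ℤ)) (H : ℤ)).filter (fun k => ((posk F k Y ζ υ aw bw X).card : ℝ) <
          δ * X * loc F k Z)).card : ℝ) ≤
        (Y : ℝ) ^ (max (2 * h / 3) υ + ε) + (H + (Y : ℝ) ^ (2 * τ)) / X * (Y : ℝ) ^ ε := by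
  obtain ⟨s, hs0, hs1, hs2⟩ : ∃ s : ℝ, 0 < s ∧ s ≤ ε / 4 ∧ s ≤ 1 - τ :=
    ⟨min (ε / 4) (1 - τ), lt_min (by linarith) (by linarith), min_le_left _ _, min_le_right _ _⟩
  set τ' : ℝ := τ + s with hτ'
  have hττ' : τ < τ' := by linarith
  obtain ⟨δ, ε₁, η, hδ, hε₁, hε₁ζ, hε₁β, hη, Y1, HC⟩ :=
    core4 K τ ζ υ aw bw τ' β (ε / 16) hζ h2 h4 hτ.le hζυ hυτ ha hb hab hJ0 hττ' hβ (by linarith)
  obtain ⟨Y2, HE⟩ := few_err2 K β τ' ε hβ (by linarith) (by linarith) hε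
  obtain ⟨Y3, HM⟩ := mer_ro2 K ε₁ υ η h ε hε₁ hυ2 hh hh1 hη hε
  obtain ⟨Y4, hY4⟩ := eventually_atTop.1 (eventually_ge_atTop 3)
  refine ⟨δ, hδ, max (max Y1 Y2) (max Y3 3), ?_⟩
  intro Y hY F H X Z hK hH hX hZ
  have hYY1 : Y1 ≤ Y := ((le_max_left _ _).trans (le_max_left _ _)).trans hY
  have hYY2 : Y2 ≤ Y := ((le_max_right _ _).trans (le_max_left _ _)).trans hY
  have hYY3 : Y3 ≤ Y := ((le_max_left _ _).trans (le_max_right _ _)).trans hY
  have e3 : 3 ≤ Y := ((le_max_right _ _).trans (le_max_right _ _)).trans hY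
  have hYr : (3 : ℝ) ≤ Y := by exact_mod_cast e3
  have hY0 : (0 : ℝ) < Y := by linarith
  have hY1r : (1 : ℝ) ≤ Y := by linarith
  have hX0 : (0 : ℝ) < X := lt_of_lt_of_le (by positivity) hX
  obtain ⟨c, hcL, hcD, hcM⟩ := HC Y hYY1
  have hPZ : ∀ p ∈ PZ Y υ, p.Prime := by
    intro p hp
    unfold PZ at hp
    rw [mem_filter] at hp
    exact hp.2.1
  have hA := HE Y hYY2 F (PZ Y υ) c H X hPZ (fun p hp k => hK p (hPZ p hp) k) hcL hcD hX
  have hB := HM Y hYY3 F H hK hH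
  set A := (Icc (-(H : ℤ)) (H : ℤ)).filter (fun k => (X : ℝ) * (Y : ℝ) ^ (-(ε / 16)) <
        |∑ T ∈ (PZ Y υ).powerset, c T * rr F k (∏ p ∈ T, p) X|) with hAdef
  set B := (Icc (-(H : ℤ)) (H : ℤ)).filter (fun k => ¬ Mer (pr Y ε₁ υ) (tt Y)
        (fun p => (ro F k p : ℝ) / p) ε₁ υ η) with hBdef
  have hsub : (Icc (-(H : ℤ)) (H : ℤ)).filter (fun k => ((posk F k Y ζ υ aw bw X).card : ℝ) <
          δ * X * loc F k Z) ⊆ B ∪ A := by
    intro k hk
    rw [mem_filter] at hk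
    rw [mem_union]
    by_contra hcon
    push Not at hcon
    have hmer : Mer (pr Y ε₁ υ) (tt Y) (fun p => (ro F k p : ℝ) / p) ε₁ υ η := by
      by_contra h'
      exact hcon.1 (by rw [hBdef, mem_filter]; exact ⟨hk.1, h'⟩)
    have herr : |∑ T ∈ (PZ Y υ).powerset, c T * rr F k (∏ p ∈ T, p) X| ≤
        (X : ℝ) * (Y : ℝ) ^ (-(ε / 16)) := by
      by_contra h'
      push Not at h'
      exact hcon.2 (by rw [hAdef, mem_filter]; exact ⟨hk.1, h'⟩)
    apply absurd hk.2 (not_lt.2 _)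
    have hcard : (Icc 1 X).card = X := by simp
    have key := hcM (Icc 1 X) (fun n => (F.eval (n : ℤ) + k).natAbs) (fun p => ro F k p) Z
      hZ (fun p hp => hK p hp k) (fun p _ => ro_le_self F k p) hmer (by
        rw [hcard]
        refine le_trans (le_of_eq ?_) herr
        congr 1
        apply sum_congr rfl
        intro T hT
        rw [mem_powerset] at hT
        congr 1
        have e5 : (Icc 1 X).filter (fun n : ℕ => ∏ p ∈ T, p ∣ (F.eval (n : ℤ) + k).natAbs) =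
            (Icc 1 X).filter (fun n : ℕ => ((∏ p ∈ T, p : ℕ) : ℤ) ∣ F.eval (n : ℤ) + k) := by
          apply filter_congr
          intro j _
          exact Int.natCast_dvd.symm
        unfold rr Pool.Agent.Y882.PX.cnt
        rw [e5, ro_prod F k T (fun p hp => hPZ p (hT hp))]
        push_cast
        rw [prod_div_distrib]
        ring)
    rw [hcard] at key
    exact key
  calc (((Icc (-(H : ℤ)) (H : ℤ)).filter (fun k => ((posk F k Y ζ υ aw bw X).card : ℝ) <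
          δ * X * loc F k Z)).card : ℝ) ≤ ((B ∪ A).card : ℝ) := by
          exact_mod_cast card_le_card hsub
    _ ≤ B.card + A.card := by exact_mod_cast card_union_le _ _
    _ ≤ _ := by
        apply add_le_add hB
        refine hA.trans ?_
        calc (H + (Y : ℝ) ^ (2 * τ')) / X * (Y : ℝ) ^ (ε / 2) ≤
            ((H + (Y : ℝ) ^ (2 * τ)) * (Y : ℝ) ^ (ε / 2)) / X * (Y : ℝ) ^ (ε / 2) := by
              apply mul_le_mul_of_nonneg_right _ (by positivity)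
              apply div_le_div_of_nonneg_right _ hX0.le
              have h1 : (Y : ℝ) ^ (2 * τ') ≤ (Y : ℝ) ^ (2 * τ) * (Y : ℝ) ^ (ε / 2) := by
                rw [← Real.rpow_add hY0]
                exact Real.rpow_le_rpow_of_exponent_le hY1r (by linarith)
              have h3 : (1 : ℝ) ≤ (Y : ℝ) ^ (ε / 2) := Real.one_le_rpow hY1r (by linarith)
              have h4 : (0 : ℝ) ≤ H := Nat.cast_nonneg _
              nlinarith
          _ = (H + (Y : ℝ) ^ (2 * τ)) / X * ((Y : ℝ) ^ (ε / 2) * (Y : ℝ) ^ (ε / 2)) := by ring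
          _ = _ := by
              rw [← Real.rpow_add hY0]
              congr 2
              ring

end Pool.Agent.V8H2.QW
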