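import Pool.Agent.V8H2.QW.Main

/-! Almost prime values of quadratic polynomials, for all but few constant terms: assembly. -/

set_option autoImplicit false

namespace Pool.Agent.V8H2.QW

open Finset Polynomial Filter
open Pool.Agent.W23.DC
open Pool.Agent.Y882
open Pool.Agent.Y882.PX
open Pool.Agent.Y882.PY
open Pool.Agent.Y882.KW

/-- few integers at which a quadratic polynomial is small -/
theorem small_FQ (a b k : ℤ) (ha : a ≠ 0) (M : ℕ) :
    ((Icc 1 M).filter (fun n : ℕ => |a * (n : ℤ) ^ 2 + b * n + k| ≤ 1)).card ≤ 6 := by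
  have h := small_vals (FQ a b) (by rw [FQ_deg a b ha]; norm_num) k M
  rw [FQ_deg a b ha] at h
  refine le_trans (le_of_eq ?_) h
  congr 1
  apply filter_congr
  intro n _
  rw [FQ_eval]

open Classical in
/-- pointwise comparison -/
theorem point (a b k : ℤ) (ha : a ≠ 0) (Y : ℕ) (hY : 2 ≤ Y) (ζ υ lam S : ℝ) (r : ℕ) (hζυ : ζ ≤ υ) (hυ0 : 0 < υ)
    (hυ1 : υ ≤ 1) (hlam : 0 < lam) (hr : 1 / lam + S / υ ≤ r + 1) (M : ℕ) (A B : Finset ℕ)
    (hAB : ∀ q ∈ pr Y ζ υ, q ∈ A ∨ q ∈ B)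
    (hS : ∀ n ∈ Icc 1 M, (((a * (n : ℤ) ^ 2 + b * n + k).natAbs : ℕ) : ℝ) ≤ (Y : ℝ) ^ S) :
    (posk (FQ a b) k Y ζ υ lam (lam / υ) M).card ≤ apc a b k r ((Y : ℝ) ^ ζ) M +
      (((Icc 1 M).filter (DivB a b k A)).card + ((Icc 1 M).filter (DivB a b k B)).card + 6) := by
  have h1 : posk (FQ a b) k Y ζ υ lam (lam / υ) M ⊆
      (Icc 1 M).filter (fun n : ℕ => 2 ≤ (a * (n : ℤ) ^ 2 + b * n + k).natAbs ∧
    (a * (n : ℤ) ^ 2 + b * n + k).natAbs.primeFactorsList.length ≤ r ∧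
    ∀ p : ℕ, p.Prime → p ∣ (a * (n : ℤ) ^ 2 + b * n + k).natAbs → (Y : ℝ) ^ ζ ≤ p) ∪
      (((Icc 1 M).filter (DivB a b k A) ∪ (Icc 1 M).filter (DivB a b k B)) ∪
        (Icc 1 M).filter (fun n : ℕ => |a * (n : ℤ) ^ 2 + b * n + k| ≤ 1)) := by
    intro n hn
    unfold posk at hn
    rw [mem_filter, FQ_eval] at hn
    obtain ⟨hn1, hn2⟩ := hn
    rw [mem_union, mem_union, mem_union, mem_filter, mem_filter, mem_filter, mem_filter]
    rcases le_or_gt |a * (n : ℤ) ^ 2 + b * n + k| 1 with h | h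
    · right; right
      exact ⟨hn1, h⟩
    by_cases hd : DivB a b k A n ∨ DivB a b k B n
    · right; left
      rcases hd with hd | hd
      · exact Or.inl ⟨hn1, hd⟩
      · exact Or.inr ⟨hn1, hd⟩
    · left
      push Not at hd
      have h2 : 2 ≤ (a * (n : ℤ) ^ 2 + b * n + k).natAbs := by
        rw [Int.abs_eq_natAbs] at h
        omega
      have h3 := almost Y hY ζ υ lam S r hζυ hυ0 hυ1 hlam hr (a * (n : ℤ) ^ 2 + b * n + k).natAbs
        (by omega) (hS n hn1) hn2 (by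
          intro q hq hqd
          have h4 : ((q ^ 2 : ℕ) : ℤ) ∣ a * (n : ℤ) ^ 2 + b * n + k := Int.natCast_dvd.2 hqd
          rcases hAB q hq with h5 | h5
          · exact hd.1 ⟨q, h5, h4⟩
          · exact hd.2 ⟨q, h5, h4⟩)
      exact ⟨hn1, h2, h3.1, h3.2⟩
  have h2 := card_le_card h1
  have h3 := small_FQ a b k ha M
  have h4 := (card_union_le ((Icc 1 M).filter (fun n : ℕ => 2 ≤ (a * (n : ℤ) ^ 2 + b * n + k).natAbs ∧
    (a * (n : ℤ) ^ 2 + b * n + k).natAbs.primeFactorsList.length ≤ r ∧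
    ∀ p : ℕ, p.Prime → p ∣ (a * (n : ℤ) ^ 2 + b * n + k).natAbs → (Y : ℝ) ^ ζ ≤ p))
      (((Icc 1 M).filter (DivB a b k A) ∪ (Icc 1 M).filter (DivB a b k B)) ∪
        (Icc 1 M).filter (fun n : ℕ => |a * (n : ℤ) ^ 2 + b * n + k| ≤ 1)))
  have h5 := card_union_le ((Icc 1 M).filter (DivB a b k A) ∪ (Icc 1 M).filter (DivB a b k B))
    ((Icc 1 M).filter (fun n : ℕ => |a * (n : ℤ) ^ 2 + b * n + k| ≤ 1))
  have h6 := card_union_le ((Icc 1 M).filter (DivB a b k A)) ((Icc 1 M).filter (DivB a b k B))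
  unfold apc
  omega

open Classical in
/-- **Almost primes for all but few constant terms.** -/
theorem engQ (K r : ℕ) (β τ ζ υ lam S ε : ℝ) (hβ : 0 < β) (hζ : 0 < ζ) (h2 : 2 * ζ < τ)
    (h4 : τ ≤ 4 * ζ) (hτ : τ < 1) (hζυ : ζ ≤ υ) (hυ2 : υ ≤ 1 / 2) (hυτ : υ < τ) (hlam : 0 < lam)
    (hJ0 : ∫ x in ζ..υ, (lam - lam / υ * x) / (τ - x) / x < Real.log (τ / ζ - 1) / τ)
    (hS : 1 < S) (hr : 1 / lam + S / υ ≤ r + 1) (hε : 0 < ε) :
    ∃ δ : ℝ, 0 < δ ∧ ∃ Y0 : ℕ, ∀ Y : ℕ, Y0 ≤ Y → ∀ (a b : ℤ) (M : ℕ), a ≠ 0 → |a| ≤ K →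
      (Y : ℝ) ^ β ≤ M → |(a : ℝ)| * M ^ 2 + |(b : ℝ)| * M ≤ K * Y →
        (((Icc (-(Y : ℤ)) (Y : ℤ)).filter (fun k => (apc a b k r ((Y : ℝ) ^ ζ) M : ℝ) <
          δ * M * loc (FQ a b) k M)).card : ℝ) ≤
        (Y : ℝ) ^ (max (2 / 3) υ + ε) + (Y + (Y : ℝ) ^ (2 * τ)) / M * (Y : ℝ) ^ ε := by
  have hυ0 : 0 < υ := by linarith
  obtain ⟨δ, hδ, Y1, HE⟩ := engK (K + 2) β τ ζ υ lam (lam / υ) 1 (ε / 2) hβ hζ h2 h4 hτ hζυ hυ2 hυτ
    hlam.le (by positivity) (by rw [div_mul_cancel₀ _ hυ0.ne']) hJ0 one_pos le_rfl (by linarith)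
  obtain ⟨c0, hc0, Y2, HL⟩ := loc_low (K + 2)
  obtain ⟨s, hs0, hs1, hs2, hs3⟩ : ∃ s : ℝ, 0 < s ∧ s ≤ β / 2 ∧ s ≤ ζ ∧ s ≤ ε / 8 :=
    ⟨min (min (β / 2) ζ) (ε / 8), lt_min (lt_min (by linarith) hζ) (by linarith),
      (min_le_left _ _).trans (min_le_left _ _), (min_le_left _ _).trans (min_le_right _ _),
      min_le_right _ _⟩
  obtain ⟨m0, hm0⟩ := exists_nat_ge (3 / (2 * ζ))
  have hm0' : 3 ≤ 2 * ζ * m0 := by
    rw [div_le_iff₀ (by positivity)] at hm0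
    linarith
  have ev1 : ∀ᶠ Y : ℕ in atTop, (2 * (13 + 2 * m0 : ℝ)) / (δ * c0) * (3 * Real.log Y) ^ (2 * (K + 2)) ≤
      (Y : ℝ) ^ s := by
    have h1 : Tendsto (fun x : ℝ => Real.log x ^ ((2 * (K + 2) : ℕ) : ℝ) / x ^ s) atTop (nhds 0) := by
      have := isLittleO_log_rpow_rpow_atTop (((2 * (K + 2) : ℕ) : ℝ)) hs0
      exact this.tendsto_div_nhds_zero
    have h2 := h1.eventually_le_const (show (0 : ℝ) <
      1 / ((2 * (13 + 2 * m0 : ℝ)) / (δ * c0) * 3 ^ (2 * (K + 2))) by positivity)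
    have h3 := tendsto_natCast_atTop_atTop.eventually (h2.and (eventually_gt_atTop (0 : ℝ)))
    filter_upwards [h3] with X hX
    obtain ⟨h4, h5⟩ := hX
    have h6 : (0 : ℝ) < (X : ℝ) ^ s := by positivity
    rw [div_le_div_iff₀ h6 (by positivity), one_mul, Real.rpow_natCast] at h4
    rw [mul_pow]
    calc 2 * (13 + 2 * (m0 : ℝ)) / (δ * c0) * (3 ^ (2 * (K + 2)) * Real.log X ^ (2 * (K + 2))) =
        Real.log X ^ (2 * (K + 2)) * ((2 * (13 + 2 * m0 : ℝ)) / (δ * c0) * 3 ^ (2 * (K + 2))) := by ring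
      _ ≤ _ := h4
  have evp : ∀ (C w : ℝ), 0 < w → ∀ᶠ Y : ℕ in atTop, C ≤ (Y : ℝ) ^ w := fun C w hw =>
    ((tendsto_rpow_atTop hw).comp tendsto_natCast_atTop_atTop).eventually_ge_atTop _
  obtain ⟨Y3, hY3⟩ := eventually_atTop.1 (ev1.and ((evp 2 (β / 2) (by linarith)).and
    ((evp (2 * K + 2) ζ hζ).and ((evp (K ^ 2 + 4 * K + 1) 1 one_pos).and
    ((evp (K + 1) (S - 1) (by linarith)).and ((evp 8 (ε / 2) (by linarith)).and
    (eventually_ge_atTop 3)))))))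
  refine ⟨δ / 2, by positivity, max Y1 (max Y2 Y3), ?_⟩
  intro Y hY a b M ha haK hM hval
  have hYY1 : Y1 ≤ Y := (le_max_left _ _).trans hY
  have hYY2 : Y2 ≤ Y := ((le_max_left _ _).trans (le_max_right _ _)).trans hY
  obtain ⟨e1, e2, e3, e4, e5, e6, e7⟩ := hY3 Y (((le_max_right _ _).trans (le_max_right _ _)).trans hY)
  rw [Real.rpow_one] at e4
  have hYr : (3 : ℝ) ≤ Y := by exact_mod_cast e7
  have hY0 : (0 : ℝ) < Y := by linarith
  have hY1r : (1 : ℝ) ≤ Y := by linarith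
  have hlY : 0 < Real.log Y := Real.log_pos (by linarith)
  have hK0 : (0 : ℝ) ≤ K := Nat.cast_nonneg _
  have haR : (1 : ℝ) ≤ |(a : ℝ)| := by
    have : (1 : ℤ) ≤ |a| := Int.one_le_abs ha
    exact_mod_cast this
  have haKR : |(a : ℝ)| ≤ K := by exact_mod_cast haK
  have hM0 : (0 : ℝ) < M := lt_of_lt_of_le (by positivity) hM
  have hM1 : 0 < M := by exact_mod_cast hM0
  have hM1r : (1 : ℝ) ≤ M := by exact_mod_cast hM1
  have habs := abs_nonneg (b : ℝ)
  -- sizes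
  have hbK : |(b : ℝ)| ≤ K * Y := by
    have h1 : |(b : ℝ)| * 1 ≤ |(b : ℝ)| * M := mul_le_mul_of_nonneg_left hM1r habs
    have h2 : 0 ≤ |(a : ℝ)| * M ^ 2 := by positivity
    linarith
  have hMY : M < Y := by
    have h1 : (M : ℝ) ^ 2 ≤ K * Y := by
      have h2 : 1 * (M : ℝ) ^ 2 ≤ |(a : ℝ)| * M ^ 2 := mul_le_mul_of_nonneg_right haR (by positivity)
      have h3 : 0 ≤ |(b : ℝ)| * M := by positivity
      linarith
    have h2 : (M : ℝ) < Y := by
      by_contra hcon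
      push Not at hcon
      have h3 : (Y : ℝ) ^ 2 ≤ M ^ 2 := pow_le_pow_left₀ hY0.le hcon 2
      have h4 : (Y : ℝ) * Y ≤ K * Y := by
        rw [← sq]
        exact h3.trans h1
      have h5 := le_of_mul_le_mul_right h4 hY0
      have h6 : (0 : ℝ) ≤ (K : ℝ) ^ 2 := sq_nonneg _
      linarith
    exact_mod_cast h2
  set t : ℝ := (Y : ℝ) ^ s with ht
  have ht0 : 0 < t := by positivity
  have ht1 : 1 ≤ t := Real.one_le_rpow hY1r hs0.le
  set R : ℝ := M / t with hR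
  have hR2 : 2 ≤ R := by
    rw [hR, le_div_iff₀ ht0]
    calc 2 * t ≤ (Y : ℝ) ^ (β / 2) * (Y : ℝ) ^ (β / 2) := by
          apply mul_le_mul e2 _ ht0.le (by positivity)
          exact Real.rpow_le_rpow_of_exponent_le hY1r hs1
      _ = (Y : ℝ) ^ β := by
          rw [← Real.rpow_add hY0]
          congr 1
          ring
      _ ≤ M := hM
  set A := (pr Y ζ υ).filter (fun q : ℕ => (q : ℝ) < R) with hAdef
  set B := (pr Y ζ υ).filter (fun q : ℕ => R ≤ (q : ℝ)) with hBdef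
  have hprm : ∀ q ∈ pr Y ζ υ, q.Prime ∧ (Y : ℝ) ^ ζ ≤ q ∧ (q : ℝ) ≤ (Y : ℝ) ^ υ := by
    intro q hq
    obtain ⟨u1, u2, u3⟩ := pr_mem Y q ζ υ (by omega) hq
    exact ⟨u1, u2, u3.le⟩
  have hW2 : (2 : ℝ) ≤ (Y : ℝ) ^ ζ := by linarith
  -- the exceptional sets
  have hE1 := HE Y hYY1 (FQ a b) Y M M (fun p hp k => ro_FQ a b ha K haK p hp k)
    (by rw [Real.rpow_one]) hM hM
  have hE2 := largeB a b B R ((Y : ℝ) ^ υ) t hR2 (by positivity) ht0 (by
    intro q hq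
    rw [hBdef, mem_filter] at hq
    exact ⟨(hprm q hq.1).1, hq.2, (hprm q hq.1).2.2⟩) M Y hM1
  set E1 := (Icc (-(Y : ℤ)) (Y : ℤ)).filter (fun k => ((posk (FQ a b) k Y ζ υ lam (lam / υ) M).card : ℝ) <
          δ * M * loc (FQ a b) k M) with hE1def
  set E2 := (Icc (-(Y : ℤ)) (Y : ℤ)).filter (fun k => (M : ℝ) / t <
      (((Icc 1 M).filter (DivB a b k B)).card : ℝ)) with hE2def
  set E3 := (Icc (-(Y : ℤ)) (Y : ℤ)).filter (fun k => b ^ 2 - 4 * a * k = 0) with hE3def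
  have hE3 : E3.card ≤ 1 := by
    rw [card_le_one]
    intro x hx y hy
    rw [hE3def, mem_filter] at hx hy
    have h1 : a * (x - y) = 0 := by linarith [hx.2, hy.2]
    rcases mul_eq_zero.1 h1 with h | h
    · exact absurd h ha
    · omega
  have hsub : (Icc (-(Y : ℤ)) (Y : ℤ)).filter (fun k => (apc a b k r ((Y : ℝ) ^ ζ) M : ℝ) <
          δ / 2 * M * loc (FQ a b) k M) ⊆ E1 ∪ (E2 ∪ E3) := by
    intro k hk
    rw [mem_filter] at hk
    rw [mem_union, mem_union]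
    by_contra hcon
    push Not at hcon
    obtain ⟨hc1, hc2, hc3⟩ := hcon
    have g1 : δ * M * loc (FQ a b) k M ≤ ((posk (FQ a b) k Y ζ υ lam (lam / υ) M).card : ℝ) := by
      by_contra h'
      exact hc1 (by rw [hE1def, mem_filter]; exact ⟨hk.1, not_le.1 h'⟩)
    have g2 : (((Icc 1 M).filter (DivB a b k B)).card : ℝ) ≤ (M : ℝ) / t := by
      by_contra h'
      exact hc2 (by rw [hE2def, mem_filter]; exact ⟨hk.1, not_le.1 h'⟩)
    have g3 : b ^ 2 - 4 * a * k ≠ 0 := by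
      intro h'
      exact hc3 (by rw [hE3def, mem_filter]; exact ⟨hk.1, h'⟩)
    have hkY : |(k : ℝ)| ≤ Y := by
      have h1 := hk.1
      rw [mem_Icc] at h1
      rw [abs_le]
      exact ⟨by exact_mod_cast h1.1, by exact_mod_cast h1.2⟩
    have hDW : ((|b ^ 2 - 4 * a * k| : ℤ) : ℝ) < ((Y : ℝ) ^ ζ) ^ (2 * (m0 + 1)) := by
      have h1 : ((|b ^ 2 - 4 * a * k| : ℤ) : ℝ) ≤ (K * Y) ^ 2 + 4 * K * Y := by
        push_cast
        calc |(b : ℝ) ^ 2 - 4 * a * k| ≤ |(b : ℝ) ^ 2| + |4 * (a : ℝ) * k| := abs_sub _ _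
          _ = |(b : ℝ)| ^ 2 + 4 * |(a : ℝ)| * |(k : ℝ)| := by
              rw [abs_pow, abs_mul, abs_mul, abs_of_pos (show (0 : ℝ) < 4 by norm_num)]
          _ ≤ _ := by
              apply add_le_add (pow_le_pow_left₀ habs hbK 2)
              exact mul_le_mul (by linarith) hkY (abs_nonneg _) (by positivity)
      have h2 : (K * Y : ℝ) ^ 2 + 4 * K * Y < (Y : ℝ) ^ 3 := by
        have h3 : (K : ℝ) ^ 2 + 4 * K < Y := by linarith
        have h4 : 4 * (K : ℝ) * Y ≤ 4 * K * Y ^ 2 := by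
          have : (Y : ℝ) ≤ Y ^ 2 := by
            have h9 := mul_le_mul_of_nonneg_left hY1r hY0.le
            rw [mul_one] at h9
            rw [sq]
            exact h9
          have : 4 * (K : ℝ) * Y ≤ 4 * K * Y ^ 2 := mul_le_mul_of_nonneg_left this (by positivity)
          exact this
        have h5 : ((K : ℝ) ^ 2 + 4 * K) * Y ^ 2 < Y * Y ^ 2 := mul_lt_mul_of_pos_right h3 (by positivity)
        linarith
      have h3 : (Y : ℝ) ^ 3 ≤ ((Y : ℝ) ^ ζ) ^ (2 * (m0 + 1)) := by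
        rw [← Real.rpow_natCast, ← Real.rpow_natCast, ← Real.rpow_mul hY0.le]
        apply Real.rpow_le_rpow_of_exponent_le hY1r
        push_cast
        linarith
      linarith
    have g4 := smallB a b k K ha haK A ((Y : ℝ) ^ ζ) R hW2 (by linarith) (by linarith) m0 g3 hDW (by
      intro q hq
      rw [hAdef, mem_filter] at hq
      exact ⟨(hprm q hq.1).1, (hprm q hq.1).2.1, hq.2.le⟩) M
    have g5 := point a b k ha Y (by omega) ζ υ lam S r hζυ hυ0 (by linarith) hlam hr M A B (by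
      intro q hq
      rw [hAdef, hBdef, mem_filter, mem_filter]
      rcases lt_or_ge (q : ℝ) R with h | h
      · left; exact ⟨hq, h⟩
      · right; exact ⟨hq, h⟩) (by
      intro n hn
      rw [mem_Icc] at hn
      have hnM : (n : ℝ) ≤ M := by exact_mod_cast hn.2
      have hn0 : (0 : ℝ) ≤ n := Nat.cast_nonneg _
      rw [Nat.cast_natAbs, Int.cast_abs]
      push_cast
      calc |(a : ℝ) * n ^ 2 + b * n + k| ≤ |(a : ℝ) * n ^ 2| + |(b : ℝ) * n| + |(k : ℝ)| := abs_add_three _ _ _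
        _ = |(a : ℝ)| * n ^ 2 + |(b : ℝ)| * n + |(k : ℝ)| := by
            rw [abs_mul, abs_mul, abs_of_nonneg hn0, abs_of_nonneg (show 0 ≤ (n : ℝ) ^ 2 by positivity)]
        _ ≤ |(a : ℝ)| * M ^ 2 + |(b : ℝ)| * M + Y := by gcongr
        _ ≤ (K + 1) * Y := by linarith
        _ ≤ (Y : ℝ) ^ (S - 1) * Y := mul_le_mul_of_nonneg_right e5 hY0.le
        _ = (Y : ℝ) ^ S := by
            nth_rewrite 2 [← Real.rpow_one (Y : ℝ)]
            rw [← Real.rpow_add hY0]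
            congr 1
            ring)
    have g5r : ((posk (FQ a b) k Y ζ υ lam (lam / υ) M).card : ℝ) ≤ apc a b k r ((Y : ℝ) ^ ζ) M +
      ((((Icc 1 M).filter (DivB a b k A)).card : ℝ) + (((Icc 1 M).filter (DivB a b k B)).card : ℝ) + 6) := by
      exact_mod_cast g5
    have g6 : (M : ℝ) / (Y : ℝ) ^ ζ ≤ R := by
      rw [hR]
      apply div_le_div_of_nonneg_left hM0.le ht0
      exact Real.rpow_le_rpow_of_exponent_le hY1r hs2
    have g7 : (((Icc 1 M).filter (DivB a b k A)).card : ℝ) ≤ (6 + 2 * m0) * R := by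
      refine g4.trans ?_
      have h1 : (M : ℝ) * (2 / (Y : ℝ) ^ ζ) = 2 * (M / (Y : ℝ) ^ ζ) := by ring
      rw [h1]
      have h2 : (m0 : ℝ) * (M / (Y : ℝ) ^ ζ + 1) ≤ m0 * (2 * R) :=
        mul_le_mul_of_nonneg_left (by linarith) (Nat.cast_nonneg _)
      linarith
    rcases HL Y hYY2 (FQ a b) k M (fun p hp => ro_FQ a b ha K haK p hp k) hMY with h0 | h0
    · have h1 := hk.2
      rw [h0, mul_zero] at h1
      exact absurd (Nat.cast_nonneg _) (not_le.2 h1)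
    · have g8 : (13 + 2 * m0 : ℝ) * R ≤ δ / 2 * M * loc (FQ a b) k M := by
        have hL0 : 0 < (3 * Real.log Y) ^ (2 * (K + 2)) := by positivity
        have h1 : (13 + 2 * m0 : ℝ) / t ≤ δ / 2 * (c0 / (3 * Real.log Y) ^ (2 * (K + 2))) := by
          rw [div_mul_eq_mul_div, div_le_iff₀ (by positivity)] at e1
          rw [mul_div_assoc', div_le_div_iff₀ ht0 hL0]
          linarith
        calc (13 + 2 * m0 : ℝ) * R = (13 + 2 * m0 : ℝ) / t * M := by rw [hR]; ring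
          _ ≤ δ / 2 * (c0 / (3 * Real.log Y) ^ (2 * (K + 2))) * M :=
              mul_le_mul_of_nonneg_right h1 hM0.le
          _ ≤ δ / 2 * loc (FQ a b) k M * M := by
              apply mul_le_mul_of_nonneg_right _ hM0.le
              exact mul_le_mul_of_nonneg_left h0 (by positivity)
          _ = _ := by ring
      have h1 := hk.2
      have h2 : (13 + 2 * (m0 : ℝ)) * R = (6 + 2 * m0) * R + 7 * R := by ring
      have h3 : (M : ℝ) / t = R := hR.symm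
      rw [h3] at g2
      have h4 : δ * M * loc (FQ a b) k M = δ / 2 * M * loc (FQ a b) k M + δ / 2 * M * loc (FQ a b) k M := by
        ring
      linarith
  set Q : ℝ := (Y + (Y : ℝ) ^ (2 * τ)) / M with hQ
  have hQ0 : 0 ≤ Q := by positivity
  set w : ℝ := (Y : ℝ) ^ (ε / 2) with hw
  have hw8 : 8 ≤ w := e6
  set P : ℝ := (Y : ℝ) ^ (max (2 / 3) υ + ε / 2) with hP
  have hmax0 : 2 / 3 ≤ max (2 / 3) υ := le_max_left _ _
  have hmax1 : υ ≤ max (2 / 3) υ := le_max_right _ _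
  have hP1 : 1 ≤ P := Real.one_le_rpow hY1r (by linarith)
  have hmax : max (2 * (1 : ℝ) / 3) υ = max (2 / 3) υ := by norm_num
  rw [hmax] at hE1
  have r1 : (E2.card : ℝ) ≤ 6 * Q * w + P := by
    refine hE2.trans ?_
    have h1 : t * ((2 * Y + 1) * (2 / R)) ≤ 6 * Q * w := by
      have h2 : (2 * (Y : ℝ) + 1) * 2 ≤ 6 * Y := by linarith
      have h3 : t * ((2 * Y + 1) * (2 / R)) = ((2 * (Y : ℝ) + 1) * 2) / M * (t * t) := by
        rw [hR]
        field_simp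
      rw [h3]
      have h4 : t * t ≤ w := by
        rw [ht, hw, ← Real.rpow_add hY0]
        exact Real.rpow_le_rpow_of_exponent_le hY1r (by linarith)
      have h5 : ((2 * (Y : ℝ) + 1) * 2) / M ≤ 6 * Q := by
        rw [hQ, mul_div_assoc']
        apply div_le_div_of_nonneg_right _ hM0.le
        have : 0 ≤ (Y : ℝ) ^ (2 * τ) := by positivity
        linarith
      exact mul_le_mul h5 h4 (by positivity) (by positivity)
    have h2 : t * (Y : ℝ) ^ υ ≤ P := by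
      rw [ht, hP, ← Real.rpow_add hY0]
      exact Real.rpow_le_rpow_of_exponent_le hY1r (by linarith)
    calc t * ((2 * Y + 1) * (2 / R) + (Y : ℝ) ^ υ) = t * ((2 * Y + 1) * (2 / R)) + t * (Y : ℝ) ^ υ := by ring
      _ ≤ _ := add_le_add h1 h2
  have r2 : (E3.card : ℝ) ≤ P := by
    have : (E3.card : ℝ) ≤ 1 := by exact_mod_cast hE3
    linarith
  calc (((Icc (-(Y : ℤ)) (Y : ℤ)).filter (fun k => (apc a b k r ((Y : ℝ) ^ ζ) M : ℝ) <
          δ / 2 * M * loc (FQ a b) k M)).card : ℝ) ≤ ((E1 ∪ (E2 ∪ E3)).card : ℝ) := by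
        exact_mod_cast card_le_card hsub
    _ ≤ E1.card + (E2.card + E3.card) := by
        exact_mod_cast (card_union_le _ _).trans (Nat.add_le_add_left (card_union_le _ _) _)
    _ ≤ (P + Q * w) + ((6 * Q * w + P) + P) := add_le_add hE1 (add_le_add r1 r2)
    _ = 3 * P + 7 * (Q * w) := by ring
    _ ≤ w * P + w * (Q * w) := by
        apply add_le_add
        · exact mul_le_mul_of_nonneg_right (by linarith) (by linarith)
        · exact mul_le_mul_of_nonneg_right (by linarith) (by positivity)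
    _ = _ := by
        have h1 : w * P = (Y : ℝ) ^ (max (2 / 3) υ + ε) := by
          rw [hw, hP, ← Real.rpow_add hY0]
          congr 1
          ring
        have h2 : w * w = (Y : ℝ) ^ ε := by
          rw [hw, ← Real.rpow_add hY0]
          congr 1
          ring
        rw [h1, ← h2]
        ring

end Pool.Agent.V8H2.QW
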