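import Mathlib

/-! Squares of primes dividing the values of a quadratic polynomial. -/

set_option autoImplicit false

namespace Pool.Agent.V8H2.QW

open Finset

theorem int_class (q : ℕ) (hq : 0 < q) (A B : ℤ) (hAB : A ≤ B + 1) (r : ℤ) :
    (((Icc A B).filter (fun x : ℤ => (q : ℤ) ∣ x - r)).card : ℝ) ≤
      ((B : ℝ) - A + 1) / q + 1 := by
  have h1 : (Icc A B).filter (fun x : ℤ => (q : ℤ) ∣ x - r) =
      (Ioc (A - 1) B).filter (fun x : ℤ => x ≡ r [ZMOD (q : ℤ)]) := by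
    ext x
    rw [mem_filter, mem_filter, mem_Icc, mem_Ioc, Int.modEq_iff_dvd, dvd_sub_comm]
    constructor
    · rintro ⟨⟨h1, h2⟩, h3⟩
      exact ⟨⟨by omega, h2⟩, h3⟩
    · rintro ⟨⟨h1, h2⟩, h3⟩
      exact ⟨⟨by omega, h2⟩, h3⟩
  rw [h1]
  have hq0 : (0 : ℤ) < q := by exact_mod_cast hq
  have hqq : (0 : ℚ) < q := by exact_mod_cast hq
  have h2 := Int.Ioc_filter_modEq_card (A - 1) B hq0 r
  have h3 : (((Ioc (A - 1) B).filter (fun x : ℤ => x ≡ r [ZMOD (q : ℤ)])).card : ℚ) ≤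
      ((B : ℚ) - A + 1) / q + 1 := by
    have h4 : ((((Ioc (A - 1) B).filter (fun x : ℤ => x ≡ r [ZMOD (q : ℤ)])).card : ℤ) : ℚ) =
      ((max (⌊((B : ℚ) - r) / ((q : ℤ) : ℚ)⌋ - ⌊(((A - 1 : ℤ) : ℚ) - r) / ((q : ℤ) : ℚ)⌋) 0 : ℤ) : ℚ) := by
      exact_mod_cast h2
    have h5 : ((((Ioc (A - 1) B).filter (fun x : ℤ => x ≡ r [ZMOD (q : ℤ)])).card : ℤ) : ℚ) =
      (((Ioc (A - 1) B).filter (fun x : ℤ => x ≡ r [ZMOD (q : ℤ)])).card : ℚ) := by push_cast; rfl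
    rw [← h5, h4]
    rw [Int.cast_max]
    apply max_le
    · push_cast
      have h6 := Int.floor_le (((B : ℚ) - r) / (q : ℚ))
      have h7 := Int.lt_floor_add_one (((A : ℚ) - 1 - r) / (q : ℚ))
      have h8 : ((B : ℚ) - A + 1) / q = ((B : ℚ) - r) / (q : ℚ) - ((A : ℚ) - 1 - r) / (q : ℚ) := by
        ring
      rw [h8]
      linarith
    · push_cast
      have : (A : ℚ) ≤ B + 1 := by exact_mod_cast hAB
      have : 0 ≤ ((B : ℚ) - A + 1) / q := div_nonneg (by linarith) hqq.le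
      linarith
  have h4 : ((((Ioc (A - 1) B).filter (fun x : ℤ => x ≡ r [ZMOD (q : ℤ)])).card : ℚ) : ℝ) ≤
      (((((B : ℚ) - A + 1) / q + 1 : ℚ)) : ℝ) := by exact_mod_cast h3
  push_cast at h4
  exact h4

theorem nat_class (q : ℕ) (hq : 0 < q) (X : ℕ) (r : ℤ) :
    (((Icc 1 X).filter (fun n : ℕ => (q : ℤ) ∣ (n : ℤ) - r)).card : ℝ) ≤ (X : ℝ) / q + 1 := by
  have h1 := int_class q hq 1 X (by omega) r
  have h2 : ((Icc 1 X).filter (fun n : ℕ => (q : ℤ) ∣ (n : ℤ) - r)).card ≤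
      ((Icc (1 : ℤ) X).filter (fun x : ℤ => (q : ℤ) ∣ x - r)).card := by
    apply card_le_card_of_injOn (fun n : ℕ => (n : ℤ))
    · intro n hn
      rw [mem_coe, mem_filter, mem_Icc] at hn
      rw [mem_coe, mem_filter, mem_Icc]
      refine ⟨⟨?_, ?_⟩, hn.2⟩
      · show (1 : ℤ) ≤ (n : ℤ)
        exact_mod_cast hn.1.1
      · show (n : ℤ) ≤ (X : ℤ)
        exact_mod_cast hn.1.2
    · intro x _ y _ h
      have h' : (x : ℤ) = (y : ℤ) := h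
      exact_mod_cast h'
  have h3 : (((Icc 1 X).filter (fun n : ℕ => (q : ℤ) ∣ (n : ℤ) - r)).card : ℝ) ≤
      (((Icc (1 : ℤ) X).filter (fun x : ℤ => (q : ℤ) ∣ x - r)).card : ℝ) := by exact_mod_cast h2
  refine h3.trans (h1.trans (le_of_eq ?_))
  push_cast
  ring

theorem disc_id (a b k n : ℤ) : (2 * a * n + b) ^ 2 = b ^ 2 - 4 * a * k + 4 * a * (a * n ^ 2 + b * n + k) := by
  ring

/-- the square of a prime which does not divide the discriminant -/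
theorem sq_small (a b k : ℤ) (q : ℕ) (hq : q.Prime) (hqa : ¬ (q : ℤ) ∣ 2 * a)
    (hD : ¬ ((q ^ 2 : ℕ) : ℤ) ∣ b ^ 2 - 4 * a * k) (X : ℕ) :
    (((Icc 1 X).filter (fun n : ℕ => ((q ^ 2 : ℕ) : ℤ) ∣ a * (n : ℤ) ^ 2 + b * n + k)).card : ℝ) ≤
      2 * ((X : ℝ) / (q : ℝ) ^ 2 + 1) := by
  have hqZ : Prime (q : ℤ) := Nat.prime_iff_prime_int.1 hq
  have hq2 : ((q ^ 2 : ℕ) : ℤ) = (q : ℤ) ^ 2 := by push_cast; ring
  rcases ((Icc 1 X).filter (fun n : ℕ => ((q ^ 2 : ℕ) : ℤ) ∣ a * (n : ℤ) ^ 2 + b * n + k)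
    ).eq_empty_or_nonempty with h | ⟨m, hm⟩
  · rw [h]
    simp only [card_empty, Nat.cast_zero]
    positivity
  rw [mem_filter] at hm
  have hm2 := hm.2
  have hnd : ¬ (q : ℤ) ∣ 2 * a * m + b := by
    intro hd
    apply hD
    rw [hq2] at hm2 ⊢
    have h1 : (q : ℤ) ^ 2 ∣ (2 * a * m + b) ^ 2 := pow_dvd_pow_of_dvd hd 2
    rw [disc_id a b k m] at h1
    exact (dvd_add_left (hm2.mul_left _)).1 h1
  have hqa' : ¬ (q : ℤ) ∣ a := fun h => hqa (h.mul_left 2)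
  have hcop : IsCoprime ((q : ℤ) ^ 2) a := by
    apply IsCoprime.pow_left
    exact (Prime.coprime_iff_not_dvd hqZ).2 hqa'
  obtain ⟨u, v, huv⟩ := hcop
  have hsub : (Icc 1 X).filter (fun n : ℕ => ((q ^ 2 : ℕ) : ℤ) ∣ a * (n : ℤ) ^ 2 + b * n + k) ⊆
      (Icc 1 X).filter (fun n : ℕ => ((q ^ 2 : ℕ) : ℤ) ∣ (n : ℤ) - (m : ℤ)) ∪
      (Icc 1 X).filter (fun n : ℕ => ((q ^ 2 : ℕ) : ℤ) ∣ (n : ℤ) - (-(v * (a * m + b)))) := by
    intro n hn
    rw [mem_filter] at hn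
    rw [mem_union, mem_filter, mem_filter]
    have h1 := dvd_sub hn.2 hm2
    have e1 : a * (n : ℤ) ^ 2 + b * n + k - (a * (m : ℤ) ^ 2 + b * m + k) =
        ((n : ℤ) - m) * (a * (n + m) + b) := by ring
    rw [e1, hq2] at h1
    rw [hq2]
    by_cases h2 : (q : ℤ) ∣ (n : ℤ) - m
    · left
      refine ⟨hn.1, ?_⟩
      have h3 : ¬ (q : ℤ) ∣ a * (n + m) + b := by
        intro h4
        apply hnd
        have : 2 * a * (m : ℤ) + b = a * (n + m) + b - a * (n - m) := by ring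
        rw [this]
        exact dvd_sub h4 (h2.mul_left _)
      exact (IsCoprime.pow_left ((Prime.coprime_iff_not_dvd hqZ).2 h3)).dvd_of_dvd_mul_right h1
    · right
      refine ⟨hn.1, ?_⟩
      have h3 : (q : ℤ) ^ 2 ∣ a * (n + m) + b :=
        (IsCoprime.pow_left ((Prime.coprime_iff_not_dvd hqZ).2 h2)).dvd_of_dvd_mul_left h1
      have e2 : (n : ℤ) - (-(v * (a * m + b))) = v * (a * (n + m) + b) + u * (q : ℤ) ^ 2 * n := by
        have : (n : ℤ) = (u * (q : ℤ) ^ 2 + v * a) * n := by rw [huv, one_mul]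
        linear_combination this
      rw [e2]
      exact dvd_add (h3.mul_left _) (Dvd.intro_left (u * n) (by ring))
  have hpos : 0 < q ^ 2 := pow_pos hq.pos 2
  have h1 := nat_class (q ^ 2) hpos X m
  have h2 := nat_class (q ^ 2) hpos X (-(v * (a * m + b)))
  have h3 : (((Icc 1 X).filter (fun n : ℕ => ((q ^ 2 : ℕ) : ℤ) ∣ a * (n : ℤ) ^ 2 + b * n + k)).card : ℝ) ≤
      (((Icc 1 X).filter (fun n : ℕ => ((q ^ 2 : ℕ) : ℤ) ∣ (n : ℤ) - (m : ℤ))).card : ℝ) +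
      (((Icc 1 X).filter (fun n : ℕ => ((q ^ 2 : ℕ) : ℤ) ∣ (n : ℤ) - (-(v * (a * m + b))))).card : ℝ) := by
    exact_mod_cast (card_le_card hsub).trans (card_union_le _ _)
  push_cast at h1 h2 h3 ⊢
  linarith

/-- the square of a prime which divides the discriminant -/
theorem sq_disc (a b k : ℤ) (q : ℕ) (hq : q.Prime) (hqa : ¬ (q : ℤ) ∣ 2 * a)
    (hD : (q : ℤ) ∣ b ^ 2 - 4 * a * k) (X : ℕ) :
    (((Icc 1 X).filter (fun n : ℕ => ((q ^ 2 : ℕ) : ℤ) ∣ a * (n : ℤ) ^ 2 + b * n + k)).card : ℝ) ≤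
      (X : ℝ) / q + 1 := by
  have hqZ : Prime (q : ℤ) := Nat.prime_iff_prime_int.1 hq
  have hq2 : ((q ^ 2 : ℕ) : ℤ) = (q : ℤ) ^ 2 := by push_cast; ring
  rcases ((Icc 1 X).filter (fun n : ℕ => ((q ^ 2 : ℕ) : ℤ) ∣ a * (n : ℤ) ^ 2 + b * n + k)
    ).eq_empty_or_nonempty with h | ⟨m, hm⟩
  · rw [h]
    simp only [card_empty, Nat.cast_zero]
    positivity
  rw [mem_filter] at hm
  have key : ∀ n : ℕ, ((q ^ 2 : ℕ) : ℤ) ∣ a * (n : ℤ) ^ 2 + b * n + k → (q : ℤ) ∣ 2 * a * n + b := by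
    intro n hn
    have h1 : (q : ℤ) ∣ (2 * a * n + b) ^ 2 := by
      rw [disc_id a b k n]
      apply dvd_add hD
      rw [hq2] at hn
      exact ((dvd_pow_self (q : ℤ) two_ne_zero).trans hn).mul_left _
    exact hqZ.dvd_of_dvd_pow h1
  have hsub : (Icc 1 X).filter (fun n : ℕ => ((q ^ 2 : ℕ) : ℤ) ∣ a * (n : ℤ) ^ 2 + b * n + k) ⊆
      (Icc 1 X).filter (fun n : ℕ => (q : ℤ) ∣ (n : ℤ) - (m : ℤ)) := by
    intro n hn
    rw [mem_filter] at hn ⊢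
    refine ⟨hn.1, ?_⟩
    have h1 := dvd_sub (key n hn.2) (key m hm.2)
    have e1 : 2 * a * (n : ℤ) + b - (2 * a * m + b) = 2 * a * ((n : ℤ) - m) := by ring
    rw [e1] at h1
    exact (hqZ.dvd_or_dvd h1).resolve_left hqa
  have h1 : (((Icc 1 X).filter (fun n : ℕ => ((q ^ 2 : ℕ) : ℤ) ∣ a * (n : ℤ) ^ 2 + b * n + k)).card : ℝ) ≤
      (((Icc 1 X).filter (fun n : ℕ => (q : ℤ) ∣ (n : ℤ) - (m : ℤ))).card : ℝ) := by
    exact_mod_cast card_le_card hsub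
  exact h1.trans (nat_class q hq.pos X m)

theorem tail_sq (B : Finset ℕ) (R : ℝ) (hR : 2 ≤ R) (h : ∀ q ∈ B, R ≤ q) :
    ∑ q ∈ B, 1 / (q : ℝ) ^ 2 ≤ 2 / R := by
  have hc : 2 ≤ ⌈R⌉₊ := by
    have h1 := Nat.le_ceil R
    have h2 : (2 : ℝ) ≤ ⌈R⌉₊ := hR.trans h1
    exact_mod_cast h2
  obtain ⟨A, hA⟩ : ∃ A : ℕ, ⌈R⌉₊ = A + 1 := ⟨⌈R⌉₊ - 1, by omega⟩
  have hA1 : 1 ≤ A := by omega
  have hAr : R - 1 ≤ A := by
    have h1 := Nat.le_ceil R
    rw [hA] at h1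
    push_cast at h1
    linarith
  have hA0 : (0 : ℝ) < A := by exact_mod_cast hA1
  have h4 : ∀ D : ℕ, A ≤ D → ∑ q ∈ Ioc A D, 1 / (q : ℝ) ^ 2 ≤ 1 / (A : ℝ) - 1 / (D : ℝ) := by
    intro D hD
    induction D, hD using Nat.le_induction with
    | base => simp
    | succ D hD ih =>
      rw [sum_Ioc_succ_top hD]
      have hD0 : (0 : ℝ) < D := by exact_mod_cast (by omega : 0 < D)
      have h5 : 1 / (((D + 1 : ℕ) : ℝ)) ^ 2 ≤ 1 / (D : ℝ) - 1 / ((D + 1 : ℕ) : ℝ) := by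
        push_cast
        rw [div_sub_div _ _ hD0.ne' (by positivity), div_le_div_iff₀ (by positivity) (by positivity)]
        nlinarith
      linarith
  have hsub : B ⊆ Ioc A (max A (B.sup id)) := by
    intro q hq
    rw [mem_Ioc]
    constructor
    · have h1 : ⌈R⌉₊ ≤ q := Nat.ceil_le.2 (h q hq)
      omega
    · exact le_trans (Finset.le_sup (f := id) hq) (le_max_right _ _)
  calc ∑ q ∈ B, 1 / (q : ℝ) ^ 2 ≤ ∑ q ∈ Ioc A (max A (B.sup id)), 1 / (q : ℝ) ^ 2 :=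
        sum_le_sum_of_subset_of_nonneg hsub (fun _ _ _ => by positivity)
    _ ≤ 1 / (A : ℝ) - 1 / ((max A (B.sup id) : ℕ) : ℝ) := h4 _ (le_max_left _ _)
    _ ≤ 1 / (A : ℝ) := by
        have : (0 : ℝ) ≤ 1 / ((max A (B.sup id) : ℕ) : ℝ) := by positivity
        linarith
    _ ≤ 2 / R := by
        rw [div_le_div_iff₀ hA0 (by linarith)]
        linarith

theorem card_lt (B : Finset ℕ) (R : ℝ) (hR : 0 ≤ R) (h : ∀ q ∈ B, 1 ≤ q ∧ (q : ℝ) ≤ R) :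
    (B.card : ℝ) ≤ R := by
  have hsub : B ⊆ Icc 1 ⌊R⌋₊ := by
    intro q hq
    obtain ⟨h1, h2⟩ := h q hq
    rw [mem_Icc]
    exact ⟨h1, Nat.le_floor h2⟩
  calc (B.card : ℝ) ≤ ((Icc 1 ⌊R⌋₊).card : ℝ) := by exact_mod_cast card_le_card hsub
    _ = (⌊R⌋₊ : ℝ) := by simp
    _ ≤ R := Nat.floor_le hR

/-- few primes have their squares dividing a nonzero integer -/
theorem few_squares (B : Finset ℕ) (W : ℝ) (hW : 1 < W) (m : ℕ) (D : ℤ) (hD0 : D ≠ 0)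
    (hDW : (|D| : ℝ) < W ^ (2 * (m + 1))) (h : ∀ q ∈ B, q.Prime ∧ W ≤ q) :
    (B.filter (fun q : ℕ => ((q ^ 2 : ℕ) : ℤ) ∣ D)).card ≤ m := by
  classical
  by_contra hcon
  push Not at hcon
  obtain ⟨T, hTs, hTc⟩ := exists_subset_card_eq (show m + 1 ≤ _ from hcon)
  have h1 : (∏ q ∈ T, q ^ 2) ∣ D.natAbs := by
    apply Finset.prod_dvd_of_isRelPrime
    · intro x hx y hy hxy
      have hx' := (h x (mem_filter.1 (hTs hx)).1).1
      have hy' := (h y (mem_filter.1 (hTs hy)).1).1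
      exact Nat.coprime_iff_isRelPrime.1 (Nat.Coprime.pow 2 2 ((Nat.coprime_primes hx' hy').2 hxy))
    · intro q hq
      exact Int.natCast_dvd.1 (mem_filter.1 (hTs hq)).2
  have h2 : ∏ q ∈ T, q ^ 2 ≤ D.natAbs := Nat.le_of_dvd (Int.natAbs_pos.2 hD0) h1
  have h3 : W ^ (2 * (m + 1)) ≤ ∏ q ∈ T, ((q : ℝ)) ^ 2 := by
    calc W ^ (2 * (m + 1)) = ∏ q ∈ T, W ^ 2 := by
          rw [prod_const, hTc, ← pow_mul]
      _ ≤ _ := by
          apply prod_le_prod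
          · intro _ _; positivity
          · intro q hq
            exact pow_le_pow_left₀ (by linarith) (h q (mem_filter.1 (hTs hq)).1).2 2
  have h4 : (∏ q ∈ T, ((q : ℝ)) ^ 2) ≤ (|D| : ℝ) := by
    have : ((∏ q ∈ T, q ^ 2 : ℕ) : ℝ) ≤ ((D.natAbs : ℕ) : ℝ) := by exact_mod_cast h2
    rw [Nat.cast_natAbs, Int.cast_abs] at this
    push_cast at this
    exact this
  linarith

end Pool.Agent.V8H2.QW
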