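import Pool.Agent.V8H2.QW.Eng
import Pool.Agent.V8H2.QW.Sq

/-! Almost prime values of quadratic polynomials, for all but few constant terms. -/

set_option autoImplicit false

namespace Pool.Agent.V8H2.QW

open Finset Polynomial Filter
open Pool.Agent.W23.DC
open Pool.Agent.Y882
open Pool.Agent.Y882.PX
open Pool.Agent.Y882.PY
open Pool.Agent.Y882.KW

/-- the quadratic polynomial without its constant term -/
noncomputable def FQ (a b : ℤ) : ℤ[X] := C a * X ^ 2 + C b * X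

theorem FQ_eval (a b n : ℤ) : (FQ a b).eval n = a * n ^ 2 + b * n := by
  simp [FQ]

theorem FQ_deg (a b : ℤ) (ha : a ≠ 0) : (FQ a b).natDegree = 2 := by
  have := natDegree_quadratic (b := b) (c := 0) ha
  unfold FQ
  simpa using this

theorem FQ_lead (a b : ℤ) (ha : a ≠ 0) : (FQ a b).leadingCoeff = a := by
  have := leadingCoeff_quadratic (b := b) (c := 0) ha
  unfold FQ
  simpa using this

theorem ro_FQ (a b : ℤ) (ha : a ≠ 0) (K : ℕ) (hK : |a| ≤ K) (p : ℕ) (hp : p.Prime) (k : ℤ) :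
    ro (FQ a b) k p ≤ K + 2 := by
  have h1 := ro_le (FQ a b) (by rw [FQ_deg a b ha]; norm_num) k p hp
  refine h1.trans ?_
  unfold KF
  rw [FQ_deg a b ha, FQ_lead a b ha]
  rw [Int.abs_eq_natAbs] at hK
  apply max_le
  · omega
  · omega

open Classical in
/-- the number of the integers `1 ≤ n ≤ M` such that `|a n² + b n + k| ≥ 2` has at most `r` prime factors
(with multiplicity), all of them at least `w` -/
noncomputable def apc (a b k : ℤ) (r : ℕ) (w : ℝ) (M : ℕ) : ℕ :=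
  ((Icc 1 M).filter (fun n : ℕ => 2 ≤ (a * (n : ℤ) ^ 2 + b * n + k).natAbs ∧
    (a * (n : ℤ) ^ 2 + b * n + k).natAbs.primeFactorsList.length ≤ r ∧
    ∀ p : ℕ, p.Prime → p ∣ (a * (n : ℤ) ^ 2 + b * n + k).natAbs → w ≤ p)).card

/-- the value at `n` is divisible by the square of an element of `B` -/
def DivB (a b k : ℤ) (B : Finset ℕ) (n : ℕ) : Prop :=
  ∃ q ∈ B, ((q ^ 2 : ℕ) : ℤ) ∣ a * (n : ℤ) ^ 2 + b * n + k

open Classical in
theorem smallB (a b k : ℤ) (K : ℕ) (ha : a ≠ 0) (haK : |a| ≤ K) (A : Finset ℕ) (W R : ℝ) (hW : 2 ≤ W)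
    (hWK : (2 * K : ℝ) < W) (hR : 0 ≤ R) (m : ℕ) (hD0 : b ^ 2 - 4 * a * k ≠ 0)
    (hDW : ((|b ^ 2 - 4 * a * k| : ℤ) : ℝ) < W ^ (2 * (m + 1)))
    (h : ∀ q ∈ A, q.Prime ∧ W ≤ q ∧ (q : ℝ) ≤ R) (M : ℕ) :
    (((Icc 1 M).filter (DivB a b k A)).card : ℝ) ≤
      2 * (M * (2 / W) + R) + m * (M / W + 1) := by
  have hqa : ∀ q ∈ A, ¬ (q : ℤ) ∣ 2 * a := by
    intro q hq hd
    have h1 : q ≤ (2 * a).natAbs := Nat.le_of_dvd (by omega) (Int.natCast_dvd.1 hd)
    rw [Int.abs_eq_natAbs] at haK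
    have h2 : (q : ℝ) ≤ 2 * K := by
      have : q ≤ 2 * K := by omega
      exact_mod_cast this
    linarith [(h q hq).2.1]
  have hcnt : ∀ q ∈ A, (((Icc 1 M).filter
      (fun n : ℕ => ((q ^ 2 : ℕ) : ℤ) ∣ a * (n : ℤ) ^ 2 + b * n + k)).card : ℝ) ≤
      2 * ((M : ℝ) * (1 / (q : ℝ) ^ 2) + 1) +
        (if ((q ^ 2 : ℕ) : ℤ) ∣ b ^ 2 - 4 * a * k then ((M : ℝ) / W + 1) else 0) := by
    intro q hq
    obtain ⟨hp, hWq, hqR⟩ := h q hq
    split_ifs with hd
    · have h1 := sq_disc a b k q hp (hqa q hq) (by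
        have h2 : ((q ^ 2 : ℕ) : ℤ) = (q : ℤ) ^ 2 := by push_cast; ring
        rw [h2] at hd
        exact (dvd_pow_self (q : ℤ) two_ne_zero).trans hd) M
      have h2 : (M : ℝ) / q ≤ M / W := by
        apply div_le_div_of_nonneg_left (Nat.cast_nonneg _) (by linarith) hWq
      have h3 : 0 ≤ 2 * ((M : ℝ) * (1 / (q : ℝ) ^ 2) + 1) := by positivity
      linarith
    · have h1 := sq_small a b k q hp (hqa q hq) hd M
      rw [add_zero, mul_one_div]
      exact h1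
  have hsub : (Icc 1 M).filter (DivB a b k A) ⊆ A.biUnion
      (fun q => (Icc 1 M).filter (fun n : ℕ => ((q ^ 2 : ℕ) : ℤ) ∣ a * (n : ℤ) ^ 2 + b * n + k)) := by
    intro j hj
    rw [mem_filter] at hj
    obtain ⟨hj1, q, hq, hqj⟩ := hj
    rw [mem_biUnion]
    exact ⟨q, hq, by rw [mem_filter]; exact ⟨hj1, hqj⟩⟩
  have hcA : (A.card : ℝ) ≤ R := by
    apply card_lt A R hR
    intro q hq
    exact ⟨(h q hq).1.one_le, (h q hq).2.2⟩
  have htA : ∑ q ∈ A, 1 / (q : ℝ) ^ 2 ≤ 2 / W := tail_sq A _ hW fun q hq => (h q hq).2.1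
  have hfs : ((A.filter (fun q : ℕ => ((q ^ 2 : ℕ) : ℤ) ∣ b ^ 2 - 4 * a * k)).card : ℝ) ≤ m := by
    have := few_squares A W (by linarith) m (b ^ 2 - 4 * a * k) hD0 (by
      push_cast at hDW ⊢
      exact hDW) (fun q hq => ⟨(h q hq).1, (h q hq).2.1⟩)
    exact_mod_cast this
  have hMW : 0 ≤ (M : ℝ) / W + 1 := by
    have : 0 ≤ (M : ℝ) / W := div_nonneg (Nat.cast_nonneg _) (by linarith)
    linarith
  calc (((Icc 1 M).filter (DivB a b k A)).card : ℝ) ≤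
      ((∑ q ∈ A, ((Icc 1 M).filter
        (fun n : ℕ => ((q ^ 2 : ℕ) : ℤ) ∣ a * (n : ℤ) ^ 2 + b * n + k)).card : ℕ) : ℝ) := by
        exact_mod_cast (card_le_card hsub).trans card_biUnion_le
    _ ≤ ∑ q ∈ A, (2 * ((M : ℝ) * (1 / (q : ℝ) ^ 2) + 1) +
        (if ((q ^ 2 : ℕ) : ℤ) ∣ b ^ 2 - 4 * a * k then ((M : ℝ) / W + 1) else 0)) := by
        rw [Nat.cast_sum]
        exact sum_le_sum hcnt
    _ = 2 * (M * (∑ q ∈ A, 1 / (q : ℝ) ^ 2) + A.card) +
        ((A.filter (fun q : ℕ => ((q ^ 2 : ℕ) : ℤ) ∣ b ^ 2 - 4 * a * k)).card : ℝ) * (M / W + 1) := by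
        rw [sum_add_distrib, ← mul_sum, sum_add_distrib, ← mul_sum, sum_const, nsmul_eq_mul, mul_one,
          ← sum_filter, sum_const, nsmul_eq_mul]
    _ ≤ _ := by gcongr

open Classical in
theorem largeB (a b : ℤ) (B : Finset ℕ) (R V t : ℝ) (hR : 2 ≤ R) (hV : 0 ≤ V) (ht : 0 < t)
    (h : ∀ q ∈ B, q.Prime ∧ R ≤ q ∧ (q : ℝ) ≤ V) (M H : ℕ) (hM : 0 < M) :
    (((Icc (-(H : ℤ)) (H : ℤ)).filter (fun k => (M : ℝ) / t <
      (((Icc 1 M).filter (DivB a b k B)).card : ℝ))).card : ℝ) ≤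
      t * ((2 * H + 1) * (2 / R) + V) := by
  set E := (Icc (-(H : ℤ)) (H : ℤ)).filter (fun k => (M : ℝ) / t <
      (((Icc 1 M).filter (DivB a b k B)).card : ℝ)) with hE
  have hM0 : (0 : ℝ) < M := by exact_mod_cast hM
  have h1 : (E.card : ℝ) * (M / t) ≤ ∑ k ∈ Icc (-(H : ℤ)) (H : ℤ),
      (((Icc 1 M).filter (DivB a b k B)).card : ℝ) := by
    calc (E.card : ℝ) * (M / t) = ∑ k ∈ E, (M : ℝ) / t := by rw [sum_const, nsmul_eq_mul]
      _ ≤ ∑ k ∈ E, (((Icc 1 M).filter (DivB a b k B)).card : ℝ) := by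
          apply sum_le_sum
          intro k hk
          rw [hE, mem_filter] at hk
          exact hk.2.le
      _ ≤ _ := sum_le_sum_of_subset_of_nonneg (filter_subset _ _) (fun _ _ _ => Nat.cast_nonneg _)
  have h2 : ∀ k : ℤ, (((Icc 1 M).filter (DivB a b k B)).card : ℝ) ≤
      ∑ n ∈ Icc 1 M, ∑ q ∈ B, (if ((q ^ 2 : ℕ) : ℤ) ∣ a * (n : ℤ) ^ 2 + b * n + k then (1 : ℝ) else 0) := by
    intro k
    rw [card_filter]
    push_cast
    apply sum_le_sum
    intro n _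
    split_ifs with hd
    · obtain ⟨q, hq, hqd⟩ := hd
      push_cast at hqd
      calc (1 : ℝ) = (if (q : ℤ) ^ 2 ∣ a * (n : ℤ) ^ 2 + b * n + k then (1 : ℝ) else 0) := by
            rw [if_pos hqd]
        _ ≤ _ := single_le_sum (f := fun q : ℕ =>
            (if (q : ℤ) ^ 2 ∣ a * (n : ℤ) ^ 2 + b * n + k then (1 : ℝ) else 0))
            (fun q _ => by split_ifs <;> norm_num) hq
    · exact sum_nonneg fun q _ => by split_ifs <;> norm_num
  have h3 : ∑ k ∈ Icc (-(H : ℤ)) (H : ℤ), (((Icc 1 M).filter (DivB a b k B)).card : ℝ) ≤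
      M * ((2 * H + 1) * (2 / R) + V) := by
    calc ∑ k ∈ Icc (-(H : ℤ)) (H : ℤ), (((Icc 1 M).filter (DivB a b k B)).card : ℝ) ≤
        ∑ k ∈ Icc (-(H : ℤ)) (H : ℤ), ∑ n ∈ Icc 1 M, ∑ q ∈ B,
          (if ((q ^ 2 : ℕ) : ℤ) ∣ a * (n : ℤ) ^ 2 + b * n + k then (1 : ℝ) else 0) :=
          sum_le_sum fun k _ => h2 k
      _ = ∑ n ∈ Icc 1 M, ∑ q ∈ B, ∑ k ∈ Icc (-(H : ℤ)) (H : ℤ),
          (if ((q ^ 2 : ℕ) : ℤ) ∣ a * (n : ℤ) ^ 2 + b * n + k then (1 : ℝ) else 0) := by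
          rw [sum_comm]
          apply sum_congr rfl
          intro n _
          rw [sum_comm]
      _ ≤ ∑ n ∈ Icc 1 M, ∑ q ∈ B, ((2 * (H : ℝ) + 1) * (1 / (q : ℝ) ^ 2) + 1) := by
          apply sum_le_sum
          intro n _
          apply sum_le_sum
          intro q hq
          have h4 := int_class (q ^ 2) (pow_pos (h q hq).1.pos 2) (-(H : ℤ)) H (by omega)
            (-(a * (n : ℤ) ^ 2 + b * n))
          have h5 : (Icc (-(H : ℤ)) (H : ℤ)).filter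
              (fun x : ℤ => ((q ^ 2 : ℕ) : ℤ) ∣ x - (-(a * (n : ℤ) ^ 2 + b * n))) =
              (Icc (-(H : ℤ)) (H : ℤ)).filter
              (fun x : ℤ => ((q ^ 2 : ℕ) : ℤ) ∣ a * (n : ℤ) ^ 2 + b * n + x) := by
            apply filter_congr
            intro x _
            rw [show x - (-(a * (n : ℤ) ^ 2 + b * n)) = a * (n : ℤ) ^ 2 + b * n + x by ring]
          rw [h5] at h4
          rw [← sum_filter, sum_const, nsmul_eq_mul, mul_one]
          refine h4.trans (le_of_eq ?_)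
          push_cast
          ring
      _ = M * ((2 * H + 1) * (∑ q ∈ B, 1 / (q : ℝ) ^ 2) + B.card) := by
          rw [sum_const, nsmul_eq_mul, sum_add_distrib, ← mul_sum, sum_const, nsmul_eq_mul, mul_one]
          simp
      _ ≤ _ := by
          have h4 : ∑ q ∈ B, 1 / (q : ℝ) ^ 2 ≤ 2 / R := tail_sq B _ hR fun q hq => (h q hq).2.1
          have h5 : (B.card : ℝ) ≤ V := by
            apply card_lt B V hV
            intro q hq
            exact ⟨(h q hq).1.one_le, (h q hq).2.2⟩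
          gcongr
  have h4 := h1.trans h3
  have h5 : (E.card : ℝ) * (M / t) = (E.card : ℝ) / t * M := by ring
  rw [h5, mul_comm (M : ℝ)] at h4
  have h6 := le_of_mul_le_mul_right h4 hM0
  rw [div_le_iff₀ ht] at h6
  linarith

theorem loc_low (K' : ℕ) : ∃ c0 : ℝ, 0 < c0 ∧ ∃ Y0 : ℕ, ∀ Y : ℕ, Y0 ≤ Y → ∀ (F : ℤ[X]) (k : ℤ) (M : ℕ),
    (∀ p : ℕ, p.Prime → ro F k p ≤ K') → M < Y → loc F k M = 0 ∨
      c0 / (3 * Real.log Y) ^ (2 * K') ≤ loc F k M := by
  classical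
  obtain ⟨c0, hc0, HV⟩ := V_low K'
  obtain ⟨Y4, HJ⟩ := exJ 1 one_pos
  refine ⟨c0, hc0, max Y4 3, fun Y hY F k M hK hM => ?_⟩
  have hY4 : Y4 ≤ Y := (le_max_left _ _).trans hY
  have e3 : 3 ≤ Y := (le_max_right _ _).trans hY
  have hYr : (3 : ℝ) ≤ Y := by exact_mod_cast e3
  obtain ⟨J, hJ1, hJ2⟩ := HJ Y hY4
  rw [Real.rpow_one] at hJ1
  by_cases hfull : ∃ p ∈ (Icc 1 M).filter Nat.Prime, ro F k p = p
  · left
    obtain ⟨p, hp, hpr⟩ := hfull
    unfold loc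
    apply prod_eq_zero hp
    rw [hpr]
    have : (p : ℝ) ≠ 0 := by exact_mod_cast (mem_filter.1 hp).2.ne_zero
    rw [div_self this, sub_self]
  · right
    push Not at hfull
    have hlY : 0 < Real.log Y := Real.log_pos (by linarith)
    have hJlog : (2 : ℝ) ^ J ≤ 3 * Real.log Y := by
      have h6 := Real.log_le_log (by positivity) hJ2
      rw [Real.log_rpow (by linarith), Real.log_pow] at h6
      push_cast at h6
      have h7 : 0.69 < Real.log 2 := by linarith [Real.log_two_gt_d9]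
      have h8 : (2 : ℝ) ^ J * 0.69 ≤ (2 : ℝ) ^ J * Real.log 2 :=
        mul_le_mul_of_nonneg_left h7.le (by positivity)
      linarith
    have h1 := HV J ((Icc 1 M).filter Nat.Prime) (fun p => (ro F k p : ℝ)) (by
      intro p hp
      rw [mem_filter, mem_Icc] at hp
      refine ⟨hp.2, ?_⟩
      have h2 : (Y : ℝ) ≤ ((2 ^ 2 ^ J : ℕ) : ℝ) := by push_cast; exact hJ1
      have h3 : Y ≤ 2 ^ 2 ^ J := by exact_mod_cast h2
      omega) (by
      intro p hp
      exact_mod_cast hK p (mem_filter.1 hp).2) (by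
      intro p hp
      have h2 := ro_le_self F k p
      have h3 := hfull p hp
      have h4 : ro F k p + 1 ≤ p := by omega
      have h5 : (ro F k p : ℝ) + 1 ≤ p := by exact_mod_cast h4
      linarith)
    unfold loc
    refine le_trans ?_ h1
    rw [div_eq_mul_one_div, one_div_pow (2 ^ J : ℝ)]
    apply mul_le_mul_of_nonneg_left _ hc0.le
    apply one_div_le_one_div_of_le (by positivity)
    exact pow_le_pow_left₀ (by positivity) hJlog _

end Pool.Agent.V8H2.QW
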