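import Pool.Agent.V8H2.QW.Fin
import Pool.Agent.Y882.KW.Num

/-! The constants. -/

set_option autoImplicit false

namespace Pool.Agent.V8H2.QW

open Real Finset Pool.Agent.Y882.KW

theorem cond_B (τ lam : ℝ) (hτ : 0 < τ) (hlam : 0 < lam) (h : 77 / 80 ≤ 1 / lam) :
    ∫ x in (τ / 4)..(9 / 10 * τ), (lam - lam / (9 / 10 * τ) * x) / (τ - x) / x <
      log (τ / (τ / 4) - 1) / τ := by
  apply cond_log lam τ (τ / 4) (9 / 10 * τ) hlam (by linarith) (by linarith) (by linarith)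
  have e1 : 9 / 10 * τ / (τ / 4) = 18 / 5 := by field_simp; norm_num
  have e2 : τ / (9 / 10 * τ) - 1 = 1 / 9 := by field_simp; norm_num
  have e3 : (τ - τ / 4) / (τ - 9 / 10 * τ) = 15 / 2 := by field_simp; norm_num
  have e4 : τ / (τ / 4) - 1 = 3 := by field_simp; norm_num
  rw [e1, e2, e3, e4]
  have h2 := Real.log_two_gt_d9
  have h2' := Real.log_two_lt_d9
  obtain ⟨h3, h3'⟩ := log3
  obtain ⟨h5, h5'⟩ := log5
  have f1 : log (18 / 5 : ℝ) = log 2 + 2 * log 3 - log 5 := by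
    rw [log_div (by norm_num) (by norm_num), show (18 : ℝ) = 2 * 3 ^ 2 by norm_num,
      log_mul (by norm_num) (by norm_num), log_pow]
    norm_num
  have f2 : log (15 / 2 : ℝ) = log 3 + log 5 - log 2 := by
    rw [log_div (by norm_num) (by norm_num), show (15 : ℝ) = 3 * 5 by norm_num,
      log_mul (by norm_num) (by norm_num)]
  rw [f1, f2]
  have h6 : 77 / 80 * log 3 ≤ 1 / lam * log 3 := mul_le_mul_of_nonneg_right h (by linarith)
  refine lt_of_lt_of_le ?_ h6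
  linarith

open Classical in
/-- products of at most two or three primes -/
theorem fin (K : ℕ) (β ε : ℝ) (hβ : 0 < β) (hε : 0 < ε) (r : ℕ) (θ : ℝ)
    (hr : (r = 2 ∧ θ = 12 / 11) ∨ (r = 3 ∧ θ = 1)) :
    ∃ δ : ℝ, 0 < δ ∧ ∃ Y0 : ℕ, ∀ Y : ℕ, Y0 ≤ Y → ∀ (a b : ℤ) (M : ℕ), a ≠ 0 → |a| ≤ K →
      (Y : ℝ) ^ β ≤ M → |(a : ℝ)| * M ^ 2 + |(b : ℝ)| * M ≤ K * Y →
        (((Icc (-(Y : ℤ)) (Y : ℤ)).filter (fun k => (apc a b k r ((Y : ℝ) ^ (1 / 8 : ℝ)) M : ℝ) <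
          δ * M * Pool.Agent.Y882.PX.loc (FQ a b) k M)).card : ℝ) ≤
        (Y : ℝ) ^ (2 / 3 + ε) + (Y : ℝ) ^ (θ + ε) / M := by
  obtain ⟨S, hS1, hS2, hθ1, hθ2⟩ : ∃ S : ℝ, 1 < S ∧ 77 / 80 + S / (9 / 10 * (θ / 2)) ≤ r + 1 ∧
      1 ≤ θ ∧ θ ≤ 12 / 11 := by
    rcases hr with ⟨rfl, rfl⟩ | ⟨rfl, rfl⟩
    · refine ⟨10002 / 10000, by norm_num, ?_, by norm_num, by norm_num⟩
      push_cast
      norm_num
    · refine ⟨12 / 10, by norm_num, ?_, by norm_num, by norm_num⟩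
      push_cast
      norm_num
  set τ : ℝ := θ / 2 with hτ
  obtain ⟨δ, hδ, Y1, H⟩ := engQ K r β τ (τ / 4) (9 / 10 * τ) (80 / 77) S (ε / 2) hβ (by linarith)
    (by linarith) (by linarith) (by linarith) (by linarith) (by linarith) (by linarith)
    (by norm_num) (cond_B τ (80 / 77) (by linarith) (by norm_num) (by norm_num)) hS1
    (by
      have : (1 : ℝ) / (80 / 77) = 77 / 80 := by norm_num
      rw [this]
      exact hS2) (by linarith)
  have ev : ∀ᶠ Y : ℕ in Filter.atTop, (2 : ℝ) ≤ (Y : ℝ) ^ (ε / 2) :=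
    ((tendsto_rpow_atTop (by linarith)).comp tendsto_natCast_atTop_atTop).eventually_ge_atTop _
  obtain ⟨Y2, hY2⟩ := Filter.eventually_atTop.1 (ev.and (Filter.eventually_ge_atTop 3))
  refine ⟨δ, hδ, max Y1 Y2, fun Y hY a b M ha haK hM hv => ?_⟩
  obtain ⟨e1, e2⟩ := hY2 Y ((le_max_right _ _).trans hY)
  have hYr : (3 : ℝ) ≤ Y := by exact_mod_cast e2
  have hY0 : (0 : ℝ) < Y := by linarith
  have hY1r : (1 : ℝ) ≤ Y := by linarith
  have hM0 : (0 : ℝ) < M := lt_of_lt_of_le (by positivity) hM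
  have h1 := H Y ((le_max_left _ _).trans hY) a b M ha haK hM hv
  have h2 : (Icc (-(Y : ℤ)) (Y : ℤ)).filter (fun k => (apc a b k r ((Y : ℝ) ^ (1 / 8 : ℝ)) M : ℝ) <
          δ * M * Pool.Agent.Y882.PX.loc (FQ a b) k M) ⊆
      (Icc (-(Y : ℤ)) (Y : ℤ)).filter (fun k => (apc a b k r ((Y : ℝ) ^ (τ / 4)) M : ℝ) <
          δ * M * Pool.Agent.Y882.PX.loc (FQ a b) k M) := by
    intro k hk
    rw [mem_filter] at hk ⊢
    refine ⟨hk.1, lt_of_le_of_lt ?_ hk.2⟩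
    have h3 : apc a b k r ((Y : ℝ) ^ (τ / 4)) M ≤ apc a b k r ((Y : ℝ) ^ (1 / 8 : ℝ)) M := by
      unfold apc
      apply card_le_card
      intro n hn
      rw [mem_filter] at hn ⊢
      refine ⟨hn.1, hn.2.1, hn.2.2.1, fun p hp hd => ?_⟩
      refine le_trans ?_ (hn.2.2.2 p hp hd)
      exact Real.rpow_le_rpow_of_exponent_le hY1r (by linarith)
    exact_mod_cast h3
  have h3 : (((Icc (-(Y : ℤ)) (Y : ℤ)).filter (fun k => (apc a b k r ((Y : ℝ) ^ (1 / 8 : ℝ)) M : ℝ) <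
          δ * M * Pool.Agent.Y882.PX.loc (FQ a b) k M)).card : ℝ) ≤
      (((Icc (-(Y : ℤ)) (Y : ℤ)).filter (fun k => (apc a b k r ((Y : ℝ) ^ (τ / 4)) M : ℝ) <
          δ * M * Pool.Agent.Y882.PX.loc (FQ a b) k M)).card : ℝ) := by
    exact_mod_cast card_le_card h2
  refine h3.trans (h1.trans (add_le_add ?_ ?_))
  · apply Real.rpow_le_rpow_of_exponent_le hY1r
    rw [max_eq_left (by linarith)]
    linarith
  · have h4 : (Y : ℝ) ≤ (Y : ℝ) ^ (2 * τ) := by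
      calc (Y : ℝ) = (Y : ℝ) ^ (1 : ℝ) := (Real.rpow_one _).symm
        _ ≤ _ := Real.rpow_le_rpow_of_exponent_le hY1r (by linarith)
    have h5 : 2 * τ = θ := by rw [hτ]; ring
    rw [h5] at h4 ⊢
    rw [div_mul_eq_mul_div]
    apply div_le_div_of_nonneg_right _ hM0.le
    calc ((Y : ℝ) + (Y : ℝ) ^ θ) * (Y : ℝ) ^ (ε / 2) ≤
        ((Y : ℝ) ^ (ε / 2) * (Y : ℝ) ^ θ) * (Y : ℝ) ^ (ε / 2) := by
          apply mul_le_mul_of_nonneg_right _ (by positivity)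
          have : 2 * (Y : ℝ) ^ θ ≤ (Y : ℝ) ^ (ε / 2) * (Y : ℝ) ^ θ :=
            mul_le_mul_of_nonneg_right e1 (by positivity)
          linarith
      _ = (Y : ℝ) ^ (θ + ε) := by
          rw [← Real.rpow_add hY0, ← Real.rpow_add hY0]
          congr 1
          ring

end Pool.Agent.V8H2.QW
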