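import Pool.Agent.V8H2.QW.Up
import Pool.Agent.V8H2.QW.Cst
import Pool.Agent.W366.DC.SFX

/-! Upper bounds for the number of prime values of quadratic polynomials, for all but few constant terms. -/

set_option autoImplicit false

namespace Pool.Agent.V8H2.QW

open Finset Polynomial Filter
open Pool.Agent.W23.DC
open Pool.Agent.Y882
open Pool.Agent.Y882.PX
open Pool.Agent.Y882.PY
open Pool.Agent.Y882.KW
open Pool.Agent.Y882.JR

/-- the number of the `1 ≤ n ≤ M` for which `|a n² + b n + k|` is a prime -/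
def prc (a b k : ℤ) (M : ℕ) : ℕ :=
  ((Icc 1 M).filter (fun n : ℕ => (a * (n : ℤ) ^ 2 + b * n + k).natAbs.Prime)).card

/-- the truncated singular series -/
noncomputable def sing (a b k : ℤ) (z : ℝ) : ℝ :=
  ∏ p ∈ (range ⌈z⌉₊).filter Nat.Prime, (1 - (ro (FQ a b) k p : ℝ) / p) / (1 - 1 / (p : ℝ))

theorem PZ_eq (Y : ℕ) (hY : 2 ≤ Y) (ζ : ℝ) (hζ : ζ ≤ 1) :
    PZ Y ζ = (range ⌈(Y : ℝ) ^ ζ⌉₊).filter Nat.Prime := by
  have hYr : (2 : ℝ) ≤ Y := by exact_mod_cast hY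
  ext p
  unfold PZ
  rw [mem_filter, mem_filter, mem_Icc, mem_range, Nat.lt_ceil]
  constructor
  · rintro ⟨_, h2, h3⟩
    exact ⟨(tt_lt Y p ζ hY h2.pos).1 h3, h2⟩
  · rintro ⟨h1, h2⟩
    refine ⟨⟨h2.one_le, ?_⟩, h2, (tt_lt Y p ζ hY h2.pos).2 h1⟩
    have h3 : (Y : ℝ) ^ ζ ≤ Y := by
      calc (Y : ℝ) ^ ζ ≤ (Y : ℝ) ^ (1 : ℝ) := Real.rpow_le_rpow_of_exponent_le (by linarith) hζ
        _ = Y := Real.rpow_one _
    exact_mod_cast (h1.trans_le h3).le

theorem Vk_eq (a b k : ℤ) (Y : ℕ) (hY : 2 ≤ Y) (ζ : ℝ) (hζ : ζ ≤ 1) :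
    Vk (FQ a b) k Y ζ = sing a b k ((Y : ℝ) ^ ζ) * GG ⌈(Y : ℝ) ^ ζ⌉₊ := by
  unfold Vk sing GG
  rw [PZ_eq Y hY ζ hζ, ← prod_mul_distrib]
  refine prod_congr rfl fun p hp => ?_
  have h := (fac_pos p (mem_filter.1 hp).2).1
  rw [div_mul_cancel₀ _ h.ne']

theorem sing_nonneg (a b k : ℤ) (z : ℝ) : 0 ≤ sing a b k z := by
  unfold sing
  apply prod_nonneg
  intro p hp
  have hp0 : (0 : ℝ) < p := by exact_mod_cast (mem_filter.1 hp).2.pos
  have h1 : (ro (FQ a b) k p : ℝ) ≤ p := by exact_mod_cast ro_le_self (FQ a b) k p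
  apply div_nonneg _ (fac_pos p (mem_filter.1 hp).2).1.le
  rw [sub_nonneg, div_le_one hp0]
  exact h1

/-- admissible constant terms -/
def Adm (a b k : ℤ) : Prop := ∀ p : ℕ, p.Prime → ∃ t : ℤ, ¬ (p : ℤ) ∣ a * t ^ 2 + b * t + k

theorem ro_lt (a b k : ℤ) (h : Adm a b k) (p : ℕ) (hp : p.Prime) : ro (FQ a b) k p ≠ p := by
  intro h1
  obtain ⟨t, ht⟩ := h p hp
  apply ht
  -- replace t by a natural number in its class
  have hp0 : (0 : ℤ) < p := by exact_mod_cast hp.pos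
  obtain ⟨n, hn⟩ : ∃ n : ℕ, (n : ℤ) = t % p := ⟨(t % p).toNat, Int.toNat_of_nonneg (Int.emod_nonneg _ hp0.ne')⟩
  have h2 := full_dvd (FQ a b) k p hp.pos h1 n
  rw [FQ_eval, hn] at h2
  have h3 : (p : ℤ) ∣ t - t % p := Int.dvd_self_sub_emod
  have h4 : a * t ^ 2 + b * t + k = (a * (t % p) ^ 2 + b * (t % p) + k) +
      (t - t % p) * (a * (t + t % p) + b) := by ring
  rw [h4]
  exact dvd_add h2 (h3.mul_right _)

open Classical in
/-- few constant terms with many small values -/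
theorem smallvals (a b : ℤ) (T t : ℝ) (hT : 0 ≤ T) (ht : 0 < t) (M H : ℕ) (hM : 0 < M) :
    (((Icc (-(H : ℤ)) (H : ℤ)).filter (fun k => (M : ℝ) / t <
      (((Icc 1 M).filter (fun n : ℕ =>
        (((a * (n : ℤ) ^ 2 + b * n + k).natAbs : ℕ) : ℝ) < T)).card : ℝ))).card : ℝ) ≤
      t * (2 * T + 1) := by
  set E := (Icc (-(H : ℤ)) (H : ℤ)).filter (fun k => (M : ℝ) / t <
      (((Icc 1 M).filter (fun n : ℕ =>
        (((a * (n : ℤ) ^ 2 + b * n + k).natAbs : ℕ) : ℝ) < T)).card : ℝ)) with hE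
  have hM0 : (0 : ℝ) < M := by exact_mod_cast hM
  have h1 : (E.card : ℝ) * (M / t) ≤ ∑ k ∈ Icc (-(H : ℤ)) (H : ℤ),
      (((Icc 1 M).filter (fun n : ℕ =>
        (((a * (n : ℤ) ^ 2 + b * n + k).natAbs : ℕ) : ℝ) < T)).card : ℝ) := by
    calc (E.card : ℝ) * (M / t) = ∑ k ∈ E, (M : ℝ) / t := by rw [sum_const, nsmul_eq_mul]
      _ ≤ ∑ k ∈ E, (((Icc 1 M).filter (fun n : ℕ =>
        (((a * (n : ℤ) ^ 2 + b * n + k).natAbs : ℕ) : ℝ) < T)).card : ℝ) := by
          apply sum_le_sum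
          intro k hk
          rw [hE, mem_filter] at hk
          exact hk.2.le
      _ ≤ _ := sum_le_sum_of_subset_of_nonneg (filter_subset _ _) (fun _ _ _ => Nat.cast_nonneg _)
  have h3 : ∑ k ∈ Icc (-(H : ℤ)) (H : ℤ), (((Icc 1 M).filter (fun n : ℕ =>
        (((a * (n : ℤ) ^ 2 + b * n + k).natAbs : ℕ) : ℝ) < T)).card : ℝ) ≤
      M * (2 * T + 1) := by
    calc ∑ k ∈ Icc (-(H : ℤ)) (H : ℤ), (((Icc 1 M).filter (fun n : ℕ =>
        (((a * (n : ℤ) ^ 2 + b * n + k).natAbs : ℕ) : ℝ) < T)).card : ℝ) =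
        ∑ n ∈ Icc 1 M, (((Icc (-(H : ℤ)) (H : ℤ)).filter (fun k : ℤ =>
          (((a * (n : ℤ) ^ 2 + b * n + k).natAbs : ℕ) : ℝ) < T)).card : ℝ) := by
          simp_rw [card_filter]
          push_cast
          rw [sum_comm]
      _ ≤ ∑ n ∈ Icc 1 M, (2 * T + 1) := by
          apply sum_le_sum
          intro n _
          have hsub : (Icc (-(H : ℤ)) (H : ℤ)).filter (fun k : ℤ =>
              (((a * (n : ℤ) ^ 2 + b * n + k).natAbs : ℕ) : ℝ) < T) ⊆
              Icc (-(⌊T⌋ : ℤ) - (a * (n : ℤ) ^ 2 + b * n)) (⌊T⌋ - (a * (n : ℤ) ^ 2 + b * n)) := by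
            intro k hk
            have h4 := (mem_filter.1 hk).2
            have h5 : ((a * (n : ℤ) ^ 2 + b * n + k).natAbs : ℤ) ≤ ⌊T⌋ := by
              rw [Int.le_floor]
              have : ((((a * (n : ℤ) ^ 2 + b * n + k).natAbs : ℤ)) : ℝ) =
                (((a * (n : ℤ) ^ 2 + b * n + k).natAbs : ℕ) : ℝ) := Int.cast_natCast _
              rw [this]
              exact h4.le
            rw [mem_Icc]
            omega
          have h6 := card_le_card hsub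
          rw [Int.card_Icc] at h6
          have h7 : (0 : ℤ) ≤ ⌊T⌋ := Int.floor_nonneg.2 hT
          have h8 : (⌊T⌋ - (a * (n : ℤ) ^ 2 + b * n) + 1 -
              (-(⌊T⌋ : ℤ) - (a * (n : ℤ) ^ 2 + b * n))).toNat = (2 * ⌊T⌋ + 1).toNat := by
            congr 1
            ring
          rw [h8] at h6
          have h9 : (((2 * ⌊T⌋ + 1).toNat : ℕ) : ℝ) = 2 * (⌊T⌋ : ℝ) + 1 := by
            have : (((2 * ⌊T⌋ + 1).toNat : ℕ) : ℤ) = 2 * ⌊T⌋ + 1 := Int.toNat_of_nonneg (by omega)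
            have h' : ((((2 * ⌊T⌋ + 1).toNat : ℕ) : ℤ) : ℝ) = ((2 * ⌊T⌋ + 1 : ℤ) : ℝ) := by rw [this]
            rw [Int.cast_natCast] at h'
            rw [h']
            push_cast
            ring
          have h10 : (⌊T⌋ : ℝ) ≤ T := Int.floor_le T
          calc (((Icc (-(H : ℤ)) (H : ℤ)).filter (fun k : ℤ =>
              (((a * (n : ℤ) ^ 2 + b * n + k).natAbs : ℕ) : ℝ) < T)).card : ℝ) ≤
              (((2 * ⌊T⌋ + 1).toNat : ℕ) : ℝ) := by exact_mod_cast h6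
            _ = 2 * (⌊T⌋ : ℝ) + 1 := h9
            _ ≤ _ := by linarith
      _ = _ := by rw [sum_const, nsmul_eq_mul]; simp
  have h4 := h1.trans h3
  have h5 : (E.card : ℝ) * (M / t) = (E.card : ℝ) / t * M := by ring
  rw [h5, mul_comm (M : ℝ)] at h4
  have h6 := le_of_mul_le_mul_right h4 hM0
  rw [div_le_iff₀ ht] at h6
  linarith

open Classical in
/-- **Upper bounds for the number of prime values.** -/
theorem upQ (K : ℕ) (β τ δ ε : ℝ) (hβ : 0 < β) (hτ1 : 1 / 2 ≤ τ) (hτ2 : τ ≤ 3 / 4) (hδ : 0 < δ)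
    (hε : 0 < ε) :
    ∃ Y0 : ℕ, ∀ Y : ℕ, Y0 ≤ Y → ∀ (a b : ℤ) (M : ℕ), a ≠ 0 → |a| ≤ K → (Y : ℝ) ^ β ≤ M →
        (((Icc (-(Y : ℤ)) (Y : ℤ)).filter (fun k => Adm a b k ∧
          (2 / τ + δ) * (sing a b k ((Y : ℝ) ^ (1 / 4 : ℝ)) * (M / Real.log Y)) <
            (prc a b k M : ℝ))).card : ℝ) ≤
        (Y : ℝ) ^ (2 / 3 + ε) + (Y : ℝ) ^ (2 * τ + ε) / M := by
  obtain ⟨A0, F, f, hSF⟩ := Pool.Agent.W366.DC.SFX
  have hA : A0 = 2 * Real.exp Real.eulerMascheroniConstant := A0_eq hSF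
  set γ := Real.eulerMascheroniConstant with hγ
  have hE : 0 < Real.exp γ := Real.exp_pos _
  -- small constants
  obtain ⟨δ', hδ', hδ'2⟩ : ∃ δ' : ℝ, 0 < δ' ∧
      (A0 / (4 * τ) + 2 * δ') * (4 * (Real.exp (-γ) + δ')) < 2 / τ + δ := by
    have h1 : Tendsto (fun x : ℝ => (A0 / (4 * τ) + 2 * x) * (4 * (Real.exp (-γ) + x)))
        (nhdsWithin 0 (Set.Ioi 0)) (nhds ((A0 / (4 * τ) + 2 * 0) * (4 * (Real.exp (-γ) + 0)))) := by
      apply tendsto_nhdsWithin_of_tendsto_nhds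
      apply Continuous.tendsto
      fun_prop
    have h2 : (A0 / (4 * τ) + 2 * 0) * (4 * (Real.exp (-γ) + 0)) < 2 / τ + δ := by
      rw [hA, Real.exp_neg]
      have : (2 * Real.exp γ / (4 * τ) + 2 * 0) * (4 * ((Real.exp γ)⁻¹ + 0)) = 2 / τ := by
        field_simp
        ring
      rw [this]
      linarith
    have h3 := h1.eventually (gt_mem_nhds h2)
    have h4 := (h3.and self_mem_nhdsWithin).exists
    obtain ⟨x, hx1, hx2⟩ := h4
    exact ⟨x, hx2, hx1⟩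
  have hτ0 : 0 < τ := by linarith
  obtain ⟨Y1, HU⟩ := engU (K + 2) A0 F f hSF β τ (1 / 4) δ' 1 (ε / 2) hβ (by norm_num) (by norm_num)
    (by linarith) (by linarith) hδ' one_pos le_rfl (by linarith)
  obtain ⟨c0, hc0, Y2, HL⟩ := Vk_low (K + 2) (1 / 4) (by norm_num)
  have hF : F (τ / (1 / 4)) = A0 / (4 * τ) := by
    rw [hSF.F3 _ (by linarith) (by linarith)]
    congr 1
    ring
  rw [hF] at HU
  obtain ⟨s, hs0, hs1, hs2⟩ : ∃ s : ℝ, 0 < s ∧ s ≤ 1 / 8 ∧ s ≤ ε / 4 :=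
    ⟨min (1 / 8) (ε / 4), lt_min (by norm_num) (by linarith), min_le_left _ _, min_le_right _ _⟩
  have ev1 : ∀ᶠ Y : ℕ in atTop, 1 / (δ' * c0) * (3 * Real.log Y) ^ (2 * (K + 2)) ≤ (Y : ℝ) ^ s := by
    have h1 : Tendsto (fun x : ℝ => Real.log x ^ ((2 * (K + 2) : ℕ) : ℝ) / x ^ s) atTop (nhds 0) := by
      have := isLittleO_log_rpow_rpow_atTop (((2 * (K + 2) : ℕ) : ℝ)) hs0
      exact this.tendsto_div_nhds_zero
    have h2 := h1.eventually_le_const (show (0 : ℝ) < 1 / (1 / (δ' * c0) * 3 ^ (2 * (K + 2))) by positivity)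
    have h3 := tendsto_natCast_atTop_atTop.eventually (h2.and (eventually_gt_atTop (0 : ℝ)))
    filter_upwards [h3] with X hX
    obtain ⟨h4, h5⟩ := hX
    have h6 : (0 : ℝ) < (X : ℝ) ^ s := by positivity
    rw [div_le_div_iff₀ h6 (by positivity), one_mul, Real.rpow_natCast] at h4
    rw [mul_pow]
    calc 1 / (δ' * c0) * (3 ^ (2 * (K + 2)) * Real.log X ^ (2 * (K + 2))) =
        Real.log X ^ (2 * (K + 2)) * (1 / (δ' * c0) * 3 ^ (2 * (K + 2))) := by ring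
      _ ≤ _ := h4
  have ev2 : ∀ᶠ Y : ℕ in atTop, GG ⌈(Y : ℝ) ^ (1 / 4 : ℝ)⌉₊ * Real.log ((Y : ℝ) ^ (1 / 4 : ℝ)) <
      Real.exp (-γ) + δ' := by
    have h1 := mert.comp ((tendsto_rpow_atTop (show (0 : ℝ) < 1 / 4 by norm_num)).comp
      tendsto_natCast_atTop_atTop)
    exact h1.eventually (gt_mem_nhds (by linarith))
  have evp : ∀ (C w : ℝ), 0 < w → ∀ᶠ Y : ℕ in atTop, C ≤ (Y : ℝ) ^ w := fun C w hw =>
    ((tendsto_rpow_atTop hw).comp tendsto_natCast_atTop_atTop).eventually_ge_atTop _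
  obtain ⟨Y3, hY3⟩ := eventually_atTop.1 (ev1.and (ev2.and ((evp 4 (ε / 2) (by linarith)).and
    (eventually_ge_atTop 3))))
  refine ⟨max Y1 (max Y2 Y3), ?_⟩
  intro Y hY a b M ha haK hM
  have hYY1 : Y1 ≤ Y := (le_max_left _ _).trans hY
  have hYY2 : Y2 ≤ Y := ((le_max_left _ _).trans (le_max_right _ _)).trans hY
  obtain ⟨e1, e2, e3, e4⟩ := hY3 Y (((le_max_right _ _).trans (le_max_right _ _)).trans hY)
  have hYr : (3 : ℝ) ≤ Y := by exact_mod_cast e4
  have hY0 : (0 : ℝ) < Y := by linarith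
  have hY1r : (1 : ℝ) ≤ Y := by linarith
  have hlY : 0 < Real.log Y := Real.log_pos (by linarith)
  have hM0 : (0 : ℝ) < M := lt_of_lt_of_le (by positivity) hM
  have hM1 : 0 < M := by exact_mod_cast hM0
  set T : ℝ := (Y : ℝ) ^ (1 / 4 : ℝ) with hT
  have hT0 : 0 < T := by positivity
  have hT1 : 1 ≤ T := Real.one_le_rpow hY1r (by norm_num)
  set t : ℝ := (Y : ℝ) ^ s with ht
  have ht0 : 0 < t := by positivity
  have hE1 := HU Y hYY1 (FQ a b) Y M (fun p hp k => ro_FQ a b ha K haK p hp k)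
    (by rw [Real.rpow_one]) hM
  have hE2 := smallvals a b T t hT0.le ht0 M Y hM1
  set E1 := (Icc (-(Y : ℤ)) (Y : ℤ)).filter (fun k => (A0 / (4 * τ) + δ') * (M * Vk (FQ a b) k Y (1 / 4)) <
          ((rghk (FQ a b) k Y (1 / 4) M).card : ℝ)) with hE1def
  set E2 := (Icc (-(Y : ℤ)) (Y : ℤ)).filter (fun k => (M : ℝ) / t <
      (((Icc 1 M).filter (fun n : ℕ =>
        (((a * (n : ℤ) ^ 2 + b * n + k).natAbs : ℕ) : ℝ) < T)).card : ℝ)) with hE2def
  have hsub : (Icc (-(Y : ℤ)) (Y : ℤ)).filter (fun k => Adm a b k ∧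
          (2 / τ + δ) * (sing a b k T * (M / Real.log Y)) < (prc a b k M : ℝ)) ⊆ E1 ∪ E2 := by
    intro k hk
    rw [mem_filter] at hk
    obtain ⟨hk1, hadm, hk2⟩ := hk
    rw [mem_union]
    by_contra hcon
    push Not at hcon
    obtain ⟨hc1, hc2⟩ := hcon
    have g1 : ((rghk (FQ a b) k Y (1 / 4) M).card : ℝ) ≤
        (A0 / (4 * τ) + δ') * (M * Vk (FQ a b) k Y (1 / 4)) := by
      by_contra h'
      exact hc1 (by rw [hE1def, mem_filter]; exact ⟨hk1, not_le.1 h'⟩)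
    have g2 : (((Icc 1 M).filter (fun n : ℕ =>
        (((a * (n : ℤ) ^ 2 + b * n + k).natAbs : ℕ) : ℝ) < T)).card : ℝ) ≤ (M : ℝ) / t := by
      by_contra h'
      exact hc2 (by rw [hE2def, mem_filter]; exact ⟨hk1, not_le.1 h'⟩)
    have g3 : prc a b k M ≤ (rghk (FQ a b) k Y (1 / 4) M).card + ((Icc 1 M).filter (fun n : ℕ =>
        (((a * (n : ℤ) ^ 2 + b * n + k).natAbs : ℕ) : ℝ) < T)).card := by
      have h1 : (Icc 1 M).filter (fun n : ℕ => (a * (n : ℤ) ^ 2 + b * n + k).natAbs.Prime) ⊆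
          rghk (FQ a b) k Y (1 / 4) M ∪ (Icc 1 M).filter (fun n : ℕ =>
        (((a * (n : ℤ) ^ 2 + b * n + k).natAbs : ℕ) : ℝ) < T) := by
        intro n hn
        rw [mem_filter] at hn
        rw [mem_union, mem_filter]
        by_cases h : (((a * (n : ℤ) ^ 2 + b * n + k).natAbs : ℕ) : ℝ) < T
        · exact Or.inr ⟨hn.1, h⟩
        · left
          unfold rghk
          rw [mem_filter]
          refine ⟨hn.1, fun p hp hd => h ?_⟩
          rw [FQ_eval] at hd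
          unfold PZ at hp
          rw [mem_filter] at hp
          have h2 : p = (a * (n : ℤ) ^ 2 + b * n + k).natAbs :=
            (Nat.prime_dvd_prime_iff_eq hp.2.1 hn.2).1 hd
          rw [← h2]
          exact (tt_lt Y p (1 / 4) (by omega) hp.2.1.pos).1 hp.2.2
      unfold prc
      exact (card_le_card h1).trans (card_union_le _ _)
    have g3r : (prc a b k M : ℝ) ≤ ((rghk (FQ a b) k Y (1 / 4) M).card : ℝ) +
        (((Icc 1 M).filter (fun n : ℕ =>
        (((a * (n : ℤ) ^ 2 + b * n + k).natAbs : ℕ) : ℝ) < T)).card : ℝ) := by exact_mod_cast g3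
    have g4 : (M : ℝ) / t ≤ δ' * (M * Vk (FQ a b) k Y (1 / 4)) := by
      rcases HL Y hYY2 (FQ a b) k (fun p hp => ro_FQ a b ha K haK p hp k) with ⟨p, hp, hpr⟩ | h0
      · unfold PZ at hp
        rw [mem_filter] at hp
        exact absurd hpr (ro_lt a b k hadm p hp.2.1)
      · have hL0 : 0 < (3 * Real.log Y) ^ (2 * (K + 2)) := by positivity
        have h3 : 1 / t ≤ δ' * (c0 / (3 * Real.log Y) ^ (2 * (K + 2))) := by
          rw [div_mul_eq_mul_div, div_le_iff₀ (by positivity)] at e1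
          rw [mul_div_assoc', div_le_div_iff₀ ht0 hL0]
          linarith
        calc (M : ℝ) / t = M * (1 / t) := by ring
          _ ≤ M * (δ' * Vk (FQ a b) k Y (1 / 4)) := by
              apply mul_le_mul_of_nonneg_left _ hM0.le
              exact h3.trans (mul_le_mul_of_nonneg_left h0 hδ'.le)
          _ = _ := by ring
    have g5 : Vk (FQ a b) k Y (1 / 4) ≤ sing a b k T * (4 * (Real.exp (-γ) + δ') / Real.log Y) := by
      rw [Vk_eq a b k Y (by omega) (1 / 4) (by norm_num)]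
      apply mul_le_mul_of_nonneg_left _ (sing_nonneg _ _ _ _)
      rw [le_div_iff₀ hlY]
      rw [Real.log_rpow hY0] at e2
      linarith
    have hA00 : 0 ≤ A0 / (4 * τ) + 2 * δ' := by
      have := hSF.pos
      positivity
    have g6 : (A0 / (4 * τ) + 2 * δ') * (M * Vk (FQ a b) k Y (1 / 4)) ≤
        (2 / τ + δ) * (sing a b k T * (M / Real.log Y)) := by
      calc (A0 / (4 * τ) + 2 * δ') * (M * Vk (FQ a b) k Y (1 / 4)) ≤
          (A0 / (4 * τ) + 2 * δ') * (M * (sing a b k T * (4 * (Real.exp (-γ) + δ') / Real.log Y))) := by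
            apply mul_le_mul_of_nonneg_left _ hA00
            exact mul_le_mul_of_nonneg_left g5 hM0.le
        _ = ((A0 / (4 * τ) + 2 * δ') * (4 * (Real.exp (-γ) + δ'))) * (sing a b k T * (M / Real.log Y)) := by ring
        _ ≤ _ := by
            apply mul_le_mul_of_nonneg_right hδ'2.le
            have := sing_nonneg a b k T
            positivity
    have g7 : (A0 / (4 * τ) + 2 * δ') * (M * Vk (FQ a b) k Y (1 / 4)) =
        (A0 / (4 * τ) + δ') * (M * Vk (FQ a b) k Y (1 / 4)) + δ' * (M * Vk (FQ a b) k Y (1 / 4)) := by ring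
    linarith
  set w : ℝ := (Y : ℝ) ^ (ε / 2) with hw
  set P : ℝ := (Y : ℝ) ^ (2 / 3 + ε / 2) with hP
  have hP0 : 0 < P := by positivity
  have hmax : max (2 * (1 : ℝ) / 3) (1 / 4) = 2 / 3 := by norm_num
  rw [hmax] at hE1
  have r2 : (E2.card : ℝ) ≤ 3 * P := by
    refine hE2.trans ?_
    calc t * (2 * T + 1) ≤ t * (3 * T) := mul_le_mul_of_nonneg_left (by linarith) ht0.le
      _ = 3 * (t * T) := by ring
      _ ≤ 3 * P := by
          apply mul_le_mul_of_nonneg_left _ (by norm_num)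
          rw [ht, hT, hP, ← Real.rpow_add hY0]
          exact Real.rpow_le_rpow_of_exponent_le hY1r (by linarith)
  calc (((Icc (-(Y : ℤ)) (Y : ℤ)).filter (fun k => Adm a b k ∧
          (2 / τ + δ) * (sing a b k T * (M / Real.log Y)) < (prc a b k M : ℝ))).card : ℝ) ≤
        ((E1 ∪ E2).card : ℝ) := by exact_mod_cast card_le_card hsub
    _ ≤ E1.card + E2.card := by exact_mod_cast card_union_le _ _
    _ ≤ (P + (Y + (Y : ℝ) ^ (2 * τ)) / M * w) + 3 * P := add_le_add hE1 r2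
    _ = 4 * P + (Y + (Y : ℝ) ^ (2 * τ)) / M * w := by ring
    _ ≤ w * P + (w * (Y : ℝ) ^ (2 * τ)) / M * w := by
        apply add_le_add
        · exact mul_le_mul_of_nonneg_right e3 hP0.le
        · apply mul_le_mul_of_nonneg_right _ (by positivity)
          apply div_le_div_of_nonneg_right _ hM0.le
          have h4 : (Y : ℝ) ≤ (Y : ℝ) ^ (2 * τ) := by
            calc (Y : ℝ) = (Y : ℝ) ^ (1 : ℝ) := (Real.rpow_one _).symm
              _ ≤ _ := Real.rpow_le_rpow_of_exponent_le hY1r (by linarith)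
          have h5 : 0 ≤ (Y : ℝ) ^ (2 * τ) := by positivity
          nlinarith
    _ = _ := by
        have h1 : w * P = (Y : ℝ) ^ (2 / 3 + ε) := by
          rw [hw, hP, ← Real.rpow_add hY0]
          congr 1
          ring
        have h2 : (w * (Y : ℝ) ^ (2 * τ)) / M * w = (Y : ℝ) ^ (2 * τ + ε) / M := by
          have : (Y : ℝ) ^ (2 * τ + ε) = w * (Y : ℝ) ^ (2 * τ) * w := by
            rw [hw, ← Real.rpow_add hY0, ← Real.rpow_add hY0]
            congr 1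
            ring
          rw [this]
          ring
        rw [h1, h2]

end Pool.Agent.V8H2.QW
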