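import Pool.Agent.Y882.JR.Core5
import Pool.Agent.V8H2.QW.Main

/-! The upper bound of the linear sieve for the values of `F + k`, for all but few constant terms `k`. -/

set_option autoImplicit false

namespace Pool.Agent.V8H2.QW

open Finset Polynomial Filter
open Pool.Agent.W23.DC
open Pool.Agent.Y882
open Pool.Agent.Y882.PX
open Pool.Agent.Y882.PY
open Pool.Agent.Y882.KW
open Pool.Agent.Y882.JR

/-- the `n ≤ X` at which `F(n) + k` has no prime factor below `Y ^ ζ` -/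
noncomputable def rghk (F : ℤ[X]) (k : ℤ) (Y : ℕ) (ζ : ℝ) (X : ℕ) : Finset ℕ :=
  (Icc 1 X).filter (fun n : ℕ => ∀ p ∈ PZ Y ζ, ¬ p ∣ (F.eval (n : ℤ) + k).natAbs)

/-- the sieve product -/
noncomputable def Vk (F : ℤ[X]) (k : ℤ) (Y : ℕ) (ζ : ℝ) : ℝ := ∏ p ∈ PZ Y ζ, (1 - (ro F k p : ℝ) / p)

/-- summation of weights -/
theorem wsumk (F : ℤ[X]) (P : Finset ℕ) (hP : ∀ p ∈ P, p.Prime) (c : Finset ℕ → ℝ) (k : ℤ) (X : ℕ) :
    ∑ n ∈ Icc 1 X, VV P c (fun p => if p ∣ (F.eval (n : ℤ) + k).natAbs then 1 else 0) =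
      X * VV P c (fun p => (ro F k p : ℝ) / p) + ∑ T ∈ P.powerset, c T * rr F k (∏ p ∈ T, p) X := by
  classical
  have h1 : (X : ℝ) * VV P c (fun p => (ro F k p : ℝ) / p) +
      ∑ T ∈ P.powerset, c T * rr F k (∏ p ∈ T, p) X =
      ∑ T ∈ P.powerset, c T * Pool.Agent.Y882.PX.cnt F k (∏ p ∈ T, p) X := by
    unfold VV
    rw [mul_sum, ← sum_add_distrib]
    apply sum_congr rfl
    intro T hT
    rw [mem_powerset] at hT
    unfold rr
    rw [ro_prod F k T (fun p hp => hP p (hT hp))]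
    push_cast
    rw [prod_div_distrib]
    ring
  rw [h1]
  symm
  unfold VV
  rw [sum_comm]
  apply sum_congr rfl
  intro T hT
  rw [mem_powerset] at hT
  unfold Pool.Agent.Y882.PX.cnt
  rw [card_filter]
  push_cast
  rw [mul_sum]
  apply sum_congr rfl
  intro n _
  rw [Pool.Agent.Y882.PX.prod_ind T (fun p hp => hP p (hT hp))]
  congr 1
  have h3 : (((∏ p ∈ T, p : ℕ) : ℤ) ∣ F.eval (n : ℤ) + k) ↔
      (∏ p ∈ T, p) ∣ (F.eval (n : ℤ) + k).natAbs := Int.natCast_dvd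
  push_cast at h3
  by_cases h4 : (∏ p ∈ T, p) ∣ (F.eval (n : ℤ) + k).natAbs
  · rw [if_pos (h3.2 h4), if_pos h4]
  · rw [if_neg (fun h => h4 (h3.1 h)), if_neg h4]

/-- the product is zero or not small -/
theorem Vk_low (K' : ℕ) (ζ : ℝ) (hζ : ζ ≤ 1) : ∃ c0 : ℝ, 0 < c0 ∧ ∃ Y0 : ℕ, ∀ Y : ℕ, Y0 ≤ Y →
    ∀ (F : ℤ[X]) (k : ℤ), (∀ p : ℕ, p.Prime → ro F k p ≤ K') →
      (∃ p ∈ PZ Y ζ, ro F k p = p) ∨ c0 / (3 * Real.log Y) ^ (2 * K') ≤ Vk F k Y ζ := by
  classical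
  obtain ⟨c0, hc0, HV⟩ := V_low K'
  obtain ⟨Y4, HJ⟩ := exJ 1 one_pos
  refine ⟨c0, hc0, max Y4 3, fun Y hY F k hK => ?_⟩
  have hY4 : Y4 ≤ Y := (le_max_left _ _).trans hY
  have e3 : 3 ≤ Y := (le_max_right _ _).trans hY
  have hYr : (3 : ℝ) ≤ Y := by exact_mod_cast e3
  obtain ⟨J, hJ1, hJ2⟩ := HJ Y hY4
  rw [Real.rpow_one] at hJ1
  have hPZ : ∀ p ∈ PZ Y ζ, p.Prime ∧ (p : ℝ) < Y := by
    intro p hp
    unfold PZ at hp
    rw [mem_filter, mem_Icc] at hp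
    refine ⟨hp.2.1, ?_⟩
    have h1 := (tt_lt Y p ζ (by omega) hp.2.1.pos).1 hp.2.2
    refine h1.trans_le ?_
    calc (Y : ℝ) ^ ζ ≤ (Y : ℝ) ^ (1 : ℝ) := Real.rpow_le_rpow_of_exponent_le (by linarith) hζ
      _ = Y := Real.rpow_one _
  by_cases hfull : ∃ p ∈ PZ Y ζ, ro F k p = p
  · exact Or.inl hfull
  · right
    push Not at hfull
    have hlY : 0 < Real.log Y := Real.log_pos (by linarith)
    have hJlog : (2 : ℝ) ^ J ≤ 3 * Real.log Y := by
      have h6 := Real.log_le_log (by positivity) hJ2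
      rw [Real.log_rpow (by linarith), Real.log_pow] at h6
      push_cast at h6
      have h7 : 0.69 < Real.log 2 := by linarith [Real.log_two_gt_d9]
      have h8 : (2 : ℝ) ^ J * 0.69 ≤ (2 : ℝ) ^ J * Real.log 2 :=
        mul_le_mul_of_nonneg_left h7.le (by positivity)
      linarith
    have h1 := HV J (PZ Y ζ) (fun p => (ro F k p : ℝ)) (by
      intro p hp
      obtain ⟨h1, h2⟩ := hPZ p hp
      refine ⟨h1, ?_⟩
      have h2 : (p : ℝ) < ((2 ^ 2 ^ J : ℕ) : ℝ) := by push_cast; exact h2.trans_le hJ1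
      exact_mod_cast h2) (by
      intro p hp
      exact_mod_cast hK p (hPZ p hp).1) (by
      intro p hp
      have h2 := ro_le_self F k p
      have h3 := hfull p hp
      have h4 : ro F k p + 1 ≤ p := by omega
      have h5 : (ro F k p : ℝ) + 1 ≤ p := by exact_mod_cast h4
      linarith)
    unfold Vk
    refine le_trans ?_ h1
    rw [div_eq_mul_one_div, one_div_pow (2 ^ J : ℝ)]
    apply mul_le_mul_of_nonneg_left _ hc0.le
    apply one_div_le_one_div_of_le (by positivity)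
    exact pow_le_pow_left₀ (by positivity) hJlog _

theorem Vk_nonneg (F : ℤ[X]) (k : ℤ) (Y : ℕ) (ζ : ℝ) : 0 ≤ Vk F k Y ζ := by
  unfold Vk
  apply prod_nonneg
  intro p hp
  unfold PZ at hp
  have hp0 : (0 : ℝ) < p := by exact_mod_cast (mem_filter.1 hp).2.1.pos
  have h1 : (ro F k p : ℝ) ≤ p := by exact_mod_cast ro_le_self F k p
  rw [sub_nonneg, div_le_one hp0]
  exact h1

/-- a full residue system -/
theorem full_dvd (F : ℤ[X]) (k : ℤ) (p : ℕ) (hp : 0 < p) (h : ro F k p = p) (n : ℕ) :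
    (p : ℤ) ∣ F.eval (n : ℤ) + k := by
  rw [ro_eq] at h
  have h1 : (range p).filter (fun n : ℕ => (p : ℤ) ∣ F.eval (n : ℤ) + k) = range p := by
    apply eq_of_subset_of_card_le (filter_subset _ _)
    rw [card_range, h]
  have h2 : n % p ∈ (range p).filter (fun n : ℕ => (p : ℤ) ∣ F.eval (n : ℤ) + k) := by
    rw [h1, mem_range]
    exact Nat.mod_lt _ hp
  have h3 := (mem_filter.1 h2).2
  have h4 : (n : ℤ) - ((n % p : ℕ) : ℤ) ∣ F.eval (n : ℤ) - F.eval ((n % p : ℕ) : ℤ) :=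
    sub_dvd_eval_sub _ _ _
  have h5 : (p : ℤ) ∣ (n : ℤ) - ((n % p : ℕ) : ℤ) := by
    push_cast
    exact Int.dvd_self_sub_emod
  have h6 : F.eval (n : ℤ) + k = (F.eval (n : ℤ) - F.eval ((n % p : ℕ) : ℤ)) +
      (F.eval ((n % p : ℕ) : ℤ) + k) := by ring
  rw [h6]
  exact dvd_add (h5.trans h4) h3

open Classical in
/-- **The upper bound of the linear sieve, for all but few constant terms.** -/
theorem engU (K : ℕ) (A0 : ℝ) (F f : ℝ → ℝ) (hSF : SF A0 F f) (β τ ζ δ h ε : ℝ) (hβ : 0 < β)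
    (hζ : 0 < ζ) (hζ2 : ζ ≤ 1 / 2) (h1 : ζ ≤ τ) (hτ : τ < 1) (hδ : 0 < δ) (hh : 0 < h)
    (hh1 : h ≤ 1) (hε : 0 < ε) :
    ∃ Y0 : ℕ, ∀ Y : ℕ, Y0 ≤ Y → ∀ (G : ℤ[X]) (H X : ℕ),
      (∀ p : ℕ, p.Prime → ∀ k : ℤ, ro G k p ≤ K) → (H : ℝ) ≤ (Y : ℝ) ^ h → (Y : ℝ) ^ β ≤ X →
        (((Icc (-(H : ℤ)) (H : ℤ)).filter (fun k => (F (τ / ζ) + δ) * (X * Vk G k Y ζ) <
          ((rghk G k Y ζ X).card : ℝ))).card : ℝ) ≤
        (Y : ℝ) ^ (max (2 * h / 3) ζ + ε) + (H + (Y : ℝ) ^ (2 * τ)) / X * (Y : ℝ) ^ ε := by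
  obtain ⟨s, hs0, hs1, hs2⟩ : ∃ s : ℝ, 0 < s ∧ s ≤ ε / 4 ∧ s ≤ 1 - τ :=
    ⟨min (ε / 4) (1 - τ), lt_min (by linarith) (by linarith), min_le_left _ _, min_le_right _ _⟩
  set τ' : ℝ := τ + s with hτ'
  have hττ' : τ < τ' := by linarith
  have hF1 : 1 ≤ F (τ / ζ) := hSF.F1 _ (by rw [le_div_iff₀ hζ]; linarith)
  obtain ⟨ε₁, η, hε₁, hε₁ζ, hη, Y1, HC⟩ :=
    core5 K A0 F f hSF τ ζ τ' (δ / 2) hζ h1 hτ.le hττ' (by linarith)
  obtain ⟨Y2, HE⟩ := few_err2 K β τ' ε hβ (by linarith) (by linarith) hε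
  obtain ⟨Y3, HM⟩ := mer_ro2 K ε₁ ζ η h ε hε₁ hζ2 hh hh1 hη hε
  obtain ⟨c0, hc0, Y4, HL⟩ := Vk_low K ζ (by linarith)
  have ev1 : ∀ᶠ Y : ℕ in atTop, 2 / (δ * c0) * (3 * Real.log Y) ^ (2 * K) ≤ (Y : ℝ) ^ (ε / 16) := by
    have h1 : Tendsto (fun x : ℝ => Real.log x ^ ((2 * K : ℕ) : ℝ) / x ^ (ε / 16)) atTop (nhds 0) := by
      have := isLittleO_log_rpow_rpow_atTop (((2 * K : ℕ) : ℝ)) (show 0 < ε / 16 by linarith)
      exact this.tendsto_div_nhds_zero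
    have h2 := h1.eventually_le_const (show (0 : ℝ) < 1 / (2 / (δ * c0) * 3 ^ (2 * K)) by positivity)
    have h3 := tendsto_natCast_atTop_atTop.eventually (h2.and (eventually_gt_atTop (0 : ℝ)))
    filter_upwards [h3] with X hX
    obtain ⟨h4, h5⟩ := hX
    have h6 : (0 : ℝ) < (X : ℝ) ^ (ε / 16) := by positivity
    rw [div_le_div_iff₀ h6 (by positivity), one_mul, Real.rpow_natCast] at h4
    rw [mul_pow]
    calc 2 / (δ * c0) * (3 ^ (2 * K) * Real.log X ^ (2 * K)) =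
        Real.log X ^ (2 * K) * (2 / (δ * c0) * 3 ^ (2 * K)) := by ring
      _ ≤ _ := h4
  obtain ⟨Y5, hY5⟩ := eventually_atTop.1 (ev1.and (eventually_ge_atTop 3))
  refine ⟨max (max Y1 Y2) (max Y3 (max Y4 Y5)), ?_⟩
  intro Y hY G H X hK hH hX
  have hYY1 : Y1 ≤ Y := ((le_max_left _ _).trans (le_max_left _ _)).trans hY
  have hYY2 : Y2 ≤ Y := ((le_max_right _ _).trans (le_max_left _ _)).trans hY
  have hYY3 : Y3 ≤ Y := ((le_max_left _ _).trans (le_max_right _ _)).trans hY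
  have hYY4 : Y4 ≤ Y := ((le_max_left _ _).trans ((le_max_right _ _).trans (le_max_right _ _))).trans hY
  obtain ⟨e1, e3⟩ := hY5 Y (((le_max_right _ _).trans ((le_max_right _ _).trans (le_max_right _ _))).trans hY)
  have hYr : (3 : ℝ) ≤ Y := by exact_mod_cast e3
  have hY0 : (0 : ℝ) < Y := by linarith
  have hY1r : (1 : ℝ) ≤ Y := by linarith
  have hlY : 0 < Real.log Y := Real.log_pos (by linarith)
  have hX0 : (0 : ℝ) < X := lt_of_lt_of_le (by positivity) hX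
  obtain ⟨wU, wL, c1, c2, c3, c4⟩ := HC Y hYY1
  have hPZ : ∀ p ∈ PZ Y ζ, p.Prime := by
    intro p hp
    unfold PZ at hp
    rw [mem_filter] at hp
    exact hp.2.1
  have hA := HE Y hYY2 G (PZ Y ζ) wU H X hPZ (fun p hp k => hK p (hPZ p hp) k)
    (fun T => (c1 T).1) (fun T hT h0 => c2 T hT (Or.inl h0)) hX
  have hB := HM Y hYY3 G H hK hH
  set A := (Icc (-(H : ℤ)) (H : ℤ)).filter (fun k => (X : ℝ) * (Y : ℝ) ^ (-(ε / 16)) <
        |∑ T ∈ (PZ Y ζ).powerset, wU T * rr G k (∏ p ∈ T, p) X|) with hAdef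
  set B := (Icc (-(H : ℤ)) (H : ℤ)).filter (fun k => ¬ Mer (pr Y ε₁ ζ) (tt Y)
        (fun p => (ro G k p : ℝ) / p) ε₁ ζ η) with hBdef
  have hsub : (Icc (-(H : ℤ)) (H : ℤ)).filter (fun k => (F (τ / ζ) + δ) * (X * Vk G k Y ζ) <
          ((rghk G k Y ζ X).card : ℝ)) ⊆ B ∪ A := by
    intro k hk
    rw [mem_filter] at hk
    rw [mem_union]
    by_contra hcon
    push Not at hcon
    have hmer : Mer (pr Y ε₁ ζ) (tt Y) (fun p => (ro G k p : ℝ) / p) ε₁ ζ η := by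
      by_contra h'
      exact hcon.1 (by rw [hBdef, mem_filter]; exact ⟨hk.1, h'⟩)
    have herr : |∑ T ∈ (PZ Y ζ).powerset, wU T * rr G k (∏ p ∈ T, p) X| ≤
        (X : ℝ) * (Y : ℝ) ^ (-(ε / 16)) := by
      by_contra h'
      push Not at h'
      exact hcon.2 (by rw [hAdef, mem_filter]; exact ⟨hk.1, h'⟩)
    apply absurd hk.2 (not_lt.2 _)
    rcases HL Y hYY4 G k (fun p hp => hK p hp k) with ⟨p, hp, hpr⟩ | h0
    · have h2 : rghk G k Y ζ X = ∅ := by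
        unfold rghk
        rw [filter_eq_empty_iff]
        intro n _ hn
        exact hn p hp (Int.natCast_dvd.1 (full_dvd G k p (hPZ p hp).pos hpr n))
      rw [h2, card_empty, Nat.cast_zero]
      have := Vk_nonneg G k Y ζ
      apply mul_nonneg (by linarith)
      exact mul_nonneg hX0.le this
    · obtain ⟨m1, m2⟩ := c4 (fun p => (ro G k p : ℝ) / p) (fun p _ => by positivity) (by
        intro p hp
        have hp0 : (0 : ℝ) < p := by exact_mod_cast (hPZ p hp).pos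
        have h1 : (ro G k p : ℝ) ≤ p := by exact_mod_cast ro_le_self G k p
        show (ro G k p : ℝ) / p ≤ 1
        rw [div_le_one hp0]
        exact h1) (by
        intro p hp _
        have hp0 : (2 : ℝ) ≤ p := by exact_mod_cast (hPZ p hp).two_le
        have h1 : (ro G k p : ℝ) ≤ K := by exact_mod_cast hK p (hPZ p hp) k
        show (ro G k p : ℝ) / p ≤ K / ((p : ℝ) - 1)
        apply div_le_div₀ (Nat.cast_nonneg _) h1 (by linarith) (by linarith)) hmer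
      have m2' : VV (PZ Y ζ) wU (fun p => (ro G k p : ℝ) / p) ≤ (F (τ / ζ) + δ / 2) * Vk G k Y ζ := m2
      have g3 : ((rghk G k Y ζ X).card : ℝ) ≤ ∑ n ∈ Icc 1 X, VV (PZ Y ζ) wU
          (fun p => if p ∣ (G.eval (n : ℤ) + k).natAbs then 1 else 0) := by
        unfold rghk
        rw [card_filter]
        push_cast
        exact sum_le_sum fun j _ => (c3 _).2
      rw [wsumk G (PZ Y ζ) hPZ wU k X] at g3
      have g4 := mul_le_mul_of_nonneg_left m2' hX0.le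
      have g5 := le_of_abs_le herr
      have g6 : (X : ℝ) * (Y : ℝ) ^ (-(ε / 16)) ≤ δ / 2 * (X * Vk G k Y ζ) := by
        have h3 : (Y : ℝ) ^ (-(ε / 16)) ≤ δ / 2 * (c0 / (3 * Real.log Y) ^ (2 * K)) := by
          have hL0 : 0 < (3 * Real.log Y) ^ (2 * K) := by positivity
          have hYe : 0 < (Y : ℝ) ^ (ε / 16) := by positivity
          rw [div_mul_eq_mul_div, div_le_iff₀ (by positivity)] at e1
          rw [Real.rpow_neg hY0.le, ← one_div, mul_div_assoc', div_le_div_iff₀ hYe hL0]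
          linarith
        calc (X : ℝ) * (Y : ℝ) ^ (-(ε / 16)) ≤ X * (δ / 2 * Vk G k Y ζ) := by
              apply mul_le_mul_of_nonneg_left _ hX0.le
              exact h3.trans (mul_le_mul_of_nonneg_left h0 (by linarith))
          _ = _ := by ring
      have g7 : (F (τ / ζ) + δ) * (X * Vk G k Y ζ) = X * ((F (τ / ζ) + δ / 2) * Vk G k Y ζ) +
          δ / 2 * (X * Vk G k Y ζ) := by ring
      rw [g7]
      linarith
  calc (((Icc (-(H : ℤ)) (H : ℤ)).filter (fun k => (F (τ / ζ) + δ) * (X * Vk G k Y ζ) <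
          ((rghk G k Y ζ X).card : ℝ))).card : ℝ) ≤ ((B ∪ A).card : ℝ) := by
          exact_mod_cast card_le_card hsub
    _ ≤ B.card + A.card := by exact_mod_cast card_union_le _ _
    _ ≤ _ := by
        apply add_le_add hB
        refine hA.trans ?_
        calc (H + (Y : ℝ) ^ (2 * τ')) / X * (Y : ℝ) ^ (ε / 2) ≤
            ((H + (Y : ℝ) ^ (2 * τ)) * (Y : ℝ) ^ (ε / 2)) / X * (Y : ℝ) ^ (ε / 2) := by
              apply mul_le_mul_of_nonneg_right _ (by positivity)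
              apply div_le_div_of_nonneg_right _ hX0.le
              have h1 : (Y : ℝ) ^ (2 * τ') ≤ (Y : ℝ) ^ (2 * τ) * (Y : ℝ) ^ (ε / 2) := by
                rw [← Real.rpow_add hY0]
                exact Real.rpow_le_rpow_of_exponent_le hY1r (by linarith)
              have h3 : (1 : ℝ) ≤ (Y : ℝ) ^ (ε / 2) := Real.one_le_rpow hY1r (by linarith)
              have h4 : (0 : ℝ) ≤ H := Nat.cast_nonneg _
              nlinarith
          _ = (H + (Y : ℝ) ^ (2 * τ)) / X * ((Y : ℝ) ^ (ε / 2) * (Y : ℝ) ^ (ε / 2)) := by ring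
          _ = _ := by
              rw [← Real.rpow_add hY0]
              congr 2
              ring

end Pool.Agent.V8H2.QW
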